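import Pool.Agent.Q298.IS.Gau


/-! The coefficients of a section of `m K + A` on a product, with respect to functions on one
factor, are sections of `m K + A'` on the other factor (the case of a curve is
`Pool.Agent.W735.PG.DESCJ`, whose proof is followed). -/

set_option autoImplicit false
set_option linter.overlappingInstances false
set_option linter.unusedSectionVars false

open FF IntermediateField Pool.Agent.W619.PQ Pool.Agent.W619.PL Pool.Agent.W619.TW
  Pool.Agent.W603.LV

namespace Pool.Agent.Q298.IS

open Pool.Agent.W735.PG.DESCJ (der_sum)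

variable {k L : Type} [Field k] [Field L] [Algebra k L] [CharZero k] [IsAlgClosed k]
  {M F : IntermediateField k L}

theorem desc (h : Dj M F) {d n : ℕ} (hM : Algebra.trdeg k M = d) (hF : Algebra.trdeg k F = n)
    {y : Fin d → M} (hy : IsTranscendenceBasis k y)
    {E : Fin (n + d) → Derivation k L L}
    (hEM : ∀ i, ∀ μ : M, E (Fin.castAdd d i) (μ : L) = 0)
    (hEF' : ∀ i, ∀ β : F, ∃ β' : F, E (Fin.castAdd d i) (β : L) = (β' : L))
    (hEF : ∀ j, ∀ β : F, E (Fin.natAdd n j) (β : L) = 0)
    (hEy : ∀ l j, E (Fin.natAdd n l) (y j : L) = if l = j then 1 else 0)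
    (S : Finset L) {b0 : L} (hb0 : b0 ≠ 0) : ∃ S' : Finset M, ∀ (m : ℕ)
      (ω : (Fin (n + d) → Derivation k L L) → L),
      IsSec k L (n + d) (fun _ => False) S m 1 ω →
      ∀ (r : ℕ) (β : Fin r → F) (μ : Fin r → M), LinearIndependent k β →
        b0 * ω E = ∑ i, (β i : L) * (μ i : L) →
        ∀ i, IsSec k M d (fun _ => False) S' m 1
          (fun D => μ i * (Matrix.of fun a b => D a (y b)).det ^ m) := by
  classical
  have hT : ∀ s : L, s ≠ 0 → ∃ T : Finset M, ∀ (u : Place k M) (U : Place k L),
      (∀ μ : M, U.ord (μ : L) = u.ord μ) → (∀ β : F, U.ord (β : L) = 0) →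
      (∀ (r : ℕ) (β : Fin r → F) (μ : Fin r → M) (c : ℤ), LinearIndependent k β →
        Ge U c (∑ i, (β i : L) * (μ i : L)) → ∀ i, Ge u c (μ i)) →
      ∃ s' ∈ T, s' ≠ 0 ∧ u.ord s' ≤ U.ord (b0 * s) :=
    fun s hs => Pool.Agent.W735.PG.DESCJ.exists_low h.sup (mul_ne_zero hb0 hs)
  choose! T hT using hT
  refine ⟨S.biUnion T, ?_⟩
  intro m ω hω r β μ hβ hsum i
  refine ⟨?_, ?_, fun u hu hf => hf.elim⟩
  · intro A D
    have h2 : (Matrix.of fun a b => (∑ c, A a c • D c) (y b)) =
        A * Matrix.of fun a b => D a (y b) := by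
      ext a b
      rw [Matrix.of_apply, Matrix.mul_apply]
      simp only [Matrix.of_apply]
      congr 1
      exact der_sum (L := M) _ _ _ _
    show μ i * (Matrix.of fun a b => (∑ c, A a c • D c) (y b)).det ^ m = _
    rw [h2, Matrix.det_mul]
    ring
  · intro u hu _ D hD
    have hU1 := UU_M h u
    have hU2 := UU_F h u
    have hU3 := fun (r : ℕ) (β : Fin r → F) (μ : Fin r → M) (c : ℤ) => UU_fam h u r β μ c
    have hU4 := UU_div h u d n hM hF hu
    have hU5 := fun D => UU_pres h u D
    obtain ⟨U, hU⟩ : ∃ U, U = UU h u := ⟨_, rfl⟩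
    rw [← hU] at hU1 hU2 hU3 hU4 hU5
    -- the derivations of `L`
    let G : Fin d → Derivation k L L := fun l => ∑ b, ((D l (y b) : M) : L) • E (Fin.natAdd n b)
    let D' : Fin (n + d) → Derivation k L L := Fin.append (fun i => E (Fin.castAdd d i)) G
    let A : Matrix (Fin (n + d)) (Fin (n + d)) L :=
      Matrix.reindex finSumFinEquiv finSumFinEquiv
        (Matrix.fromBlocks (1 : Matrix (Fin n) (Fin n) L) 0 0
          (Matrix.of fun l b => ((D l (y b) : M) : L)))
    have hA : (fun a => ∑ c, A a c • E c) = D' := by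
      funext a
      rw [Fin.sum_univ_add]
      refine Fin.addCases (fun i => ?_) (fun l => ?_) a
      · change _ = Fin.append (fun i => E (Fin.castAdd d i)) G (Fin.castAdd d i)
        rw [Fin.append_left]
        have h1 : ∀ c : Fin n, A (Fin.castAdd d i) (Fin.castAdd d c) =
            (1 : Matrix (Fin n) (Fin n) L) i c := fun c => by
          simp only [A, Matrix.reindex_apply, Matrix.submatrix_apply,
            finSumFinEquiv_symm_apply_castAdd, Matrix.fromBlocks_apply₁₁]
        have h2 : ∀ c : Fin d, A (Fin.castAdd d i) (Fin.natAdd n c) = 0 := fun c => by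
          simp only [A, Matrix.reindex_apply, Matrix.submatrix_apply,
            finSumFinEquiv_symm_apply_castAdd, finSumFinEquiv_symm_apply_natAdd,
            Matrix.fromBlocks_apply₁₂, Matrix.zero_apply]
        simp only [h1, h2, zero_smul, Finset.sum_const_zero, add_zero, Matrix.one_apply,
          ite_smul, one_smul, Finset.sum_ite_eq, Finset.mem_univ, if_true]
      · change _ = Fin.append (fun i => E (Fin.castAdd d i)) G (Fin.natAdd n l)
        rw [Fin.append_right]
        have h1 : ∀ c : Fin n, A (Fin.natAdd n l) (Fin.castAdd d c) = 0 := fun c => by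
          simp only [A, Matrix.reindex_apply, Matrix.submatrix_apply,
            finSumFinEquiv_symm_apply_castAdd, finSumFinEquiv_symm_apply_natAdd,
            Matrix.fromBlocks_apply₂₁, Matrix.zero_apply]
        have h2 : ∀ c : Fin d, A (Fin.natAdd n l) (Fin.natAdd n c) = ((D l (y c) : M) : L) :=
          fun c => by
          simp only [A, Matrix.reindex_apply, Matrix.submatrix_apply,
            finSumFinEquiv_symm_apply_natAdd, Matrix.fromBlocks_apply₂₂, Matrix.of_apply]
        simp only [h1, h2, zero_smul, Finset.sum_const_zero, zero_add]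
        rfl
    have hdet : A.det = (((Matrix.of fun a b => D a (y b)).det : M) : L) := by
      change (Matrix.reindex finSumFinEquiv finSumFinEquiv _).det = _
      rw [Matrix.det_reindex_self, Matrix.det_fromBlocks_zero₂₁, Matrix.det_one, one_mul]
      have h6 := (algebraMap M L).map_det (Matrix.of fun a b => D a (y b))
      exact h6.symm
    have hωD : ω D' = (((Matrix.of fun a b => D a (y b)).det : M) : L) ^ m * ω E := by
      rw [← hdet, ← hω.1 A E, hA]
    -- the derivations preserve the valuation ring of `U`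
    have hyM : ∀ (l : Fin d) (z : M), G l (z : L) = ((D l z : M) : L) := by
      intro l z
      refine der_comp (K := M) (L := L) (D l) (G l) y hy (fun c => ?_) z
      show (∑ b, ((D l (y b) : M) : L) • E (Fin.natAdd n b)) ((y c : M) : L) =
        ((D l (y c) : M) : L)
      rw [der_sum]
      simp only [hEy]
      simp
    have hpres : ∀ a, Pres U (D' a) := by
      intro a
      refine Fin.addCases (fun i => ?_) (fun l => ?_) a
      · change Pres U (Fin.append (fun i => E (Fin.castAdd d i)) G (Fin.castAdd d i))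
        rw [Fin.append_left]
        exact hU5 _ (fun z _ => ⟨0, by rw [hEM]; rfl, u.reg_zero⟩) (fun β => hEF' i β)
      · change Pres U (Fin.append (fun i => E (Fin.castAdd d i)) G (Fin.natAdd n l))
        rw [Fin.append_right]
        refine hU5 _ (fun z hz => ⟨D l z, hyM l z, hD l z hz⟩) (fun β => ⟨0, ?_⟩)
        show (∑ b, ((D l (y b) : M) : L) • E (Fin.natAdd n b)) (β : L) = _
        rw [der_sum]
        simp [hEF]
    have hdom := hω.2.1 U hU4 (fun h => h) D' hpres
    -- multiply by `b0`
    obtain ⟨δ, hδ⟩ : ∃ δ : M, δ = (Matrix.of fun a b => D a (y b)).det := ⟨_, rfl⟩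
    change Dom u (S.biUnion T) 1 (μ i * (Matrix.of fun a b => D a (y b)).det ^ m)
    rw [← hδ]
    rw [← hδ] at hωD
    have hexp : b0 * ω D' = ∑ i, (β i : L) * ((μ i * δ ^ m : M) : L) := by
      rw [hωD]
      calc b0 * ((δ : L) ^ m * ω E) = (δ : L) ^ m * (b0 * ω E) := by ring
        _ = _ := by
          rw [hsum, Finset.mul_sum]
          refine Finset.sum_congr rfl fun i _ => ?_
          push_cast; ring
    rcases hdom with h0 | ⟨s, hs, hs0, hsU⟩
    · left
      by_contra hne
      have h9 := hU3 r β (fun i => μ i * δ ^ m) (u.ord (μ i * δ ^ m) + 1) hβ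
        (by rw [← hexp, h0, mul_zero]; exact Ge.zero) i
      have := h9.resolve_left hne
      omega
    · obtain ⟨s', hs', hs'0, hle⟩ := hT s hs0 u U hU1 hU2 hU3
      have h9 : Ge U (u.ord s') (b0 * ω D') := by
        have h10 : Ge U (U.ord s) (ω D') := Or.inr (by simpa using hsU)
        have h11 : Ge U (U.ord b0) b0 := Or.inr le_rfl
        refine (h11.mul h10).mono ?_
        rw [U.ord_mul hb0 hs0] at hle
        exact hle
      rw [hexp] at h9
      rcases hU3 r β (fun i => μ i * δ ^ m) _ hβ h9 i with h12 | h12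
      · left; exact h12
      · right
        exact ⟨s', Finset.mem_biUnion.2 ⟨s, hs, hs'⟩, hs'0, by simpa using h12⟩

end Pool.Agent.Q298.IS
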