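import Pool.Agent.W881.PG.GAUSSB
import Pool.Agent.W904.PG.UNI
import Pool.Agent.W735.PG.DESCJ
import Pool.Agent.W636.PG.Trans

/-! The Gauss extension of a place of a variety to the product with a second variety (the case of a
curve is `Pool.Agent.W381.PG`, whose proofs are followed). -/

set_option autoImplicit false
set_option linter.overlappingInstances false
set_option linter.unusedSectionVars false

open FF IntermediateField Pool.Agent.W619.PQ Pool.Agent.W619.PL Pool.Agent.W619.TW
  Pool.Agent.W603.LV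

namespace Pool.Agent.Q298.IS

section

variable {k L : Type*} [Field k] [Field L] [Algebra k L]

/-- `L` is the function field of the product of varieties with function fields `M` and `F`. -/
structure Dj (M F : IntermediateField k L) : Prop where
  ld : M.LinearDisjoint F
  sup : M ⊔ F = ⊤

variable {M F : IntermediateField k L}

theorem linDisj' (h : Dj M F) {ι : Type*} (β : ι → F) (hβ : LinearIndependent k β) :
    LinearIndependent M (fun i => (β i : L)) :=
  h.ld.linearIndependent_right hβ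

/-- Every element of `L` is a quotient of elements of the ring. -/
theorem Dj.frac [CharZero k] (h : Dj M F) (z : L) : ∃ a ∈ RR M F, ∃ b ∈ RR M F, b ≠ 0 ∧ z = a / b :=
  Pool.Agent.W735.PG.DESCJ.frac (M := F) (F := M) (by rw [sup_comm]; exact h.sup) z

end



section

variable {k L : Type*} [Field k] [Field L] [Algebra k L] {M F : IntermediateField k L}

/-- The elements of order at least `n`. -/
def GG (F : IntermediateField k L) (u : Place k M) (n : ℤ) : Submodule F L :=
  Submodule.span F ((fun μ : M => (μ : L)) '' {μ | Ge u n μ})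

variable {u : Place k M} {n m : ℤ} {z w : L}

theorem GG_M {μ : M} (h : Ge u n μ) : (μ : L) ∈ GG F u n :=
  Submodule.subset_span ⟨μ, h, rfl⟩

theorem GG_ind {p : L → Prop} (h0 : p 0) (hadd : ∀ x y, p x → p y → p (x + y))
    (hs : ∀ (β : F) (μ : M), Ge u n μ → p ((β : L) * (μ : L))) (hz : z ∈ GG F u n) : p z := by
  unfold GG at hz
  induction hz using Submodule.closure_induction with
  | zero => exact h0
  | add x y _ _ hx hy => exact hadd x y hx hy
  | smul_mem r x h =>
    obtain ⟨μ, hμ, rfl⟩ := h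
    exact hs r μ hμ

theorem GG_mul_M {μ : M} (h : Ge u m μ) (hz : z ∈ GG F u n) : z * (μ : L) ∈ GG F u (n + m) := by
  refine GG_ind (p := fun z => z * (μ : L) ∈ GG F u (n + m)) ?_ ?_ ?_ hz
  · rw [zero_mul]; exact zero_mem _
  · intro x y hx hy
    rw [add_mul]; exact add_mem hx hy
  · intro β ν hν
    have h1 : ((ν * μ : M) : L) ∈ GG F u (n + m) := GG_M (hν.mul h)
    have h2 := Submodule.smul_mem _ β h1
    have h3 : (β : L) * (ν : L) * (μ : L) = β • ((ν * μ : M) : L) := by
      rw [Algebra.smul_def]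
      push_cast
      rw [mul_assoc]
      rfl
    rw [h3]
    exact h2

theorem GG_mul_F (β : F) (hz : z ∈ GG F u n) : z * (β : L) ∈ GG F u n := by
  have h2 := Submodule.smul_mem _ β hz
  rw [Algebra.smul_def, mul_comm] at h2
  exact h2

theorem GG_mul (hz : z ∈ GG F u n) (hw : w ∈ GG F u m) : z * w ∈ GG F u (n + m) := by
  refine GG_ind (p := fun w => z * w ∈ GG F u (n + m)) ?_ ?_ ?_ hw
  · rw [mul_zero]; exact zero_mem _
  · intro x y hx hy
    rw [mul_add]; exact add_mem hx hy
  · intro β μ hμ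
    have h1 := GG_mul_M hμ (GG_mul_F β hz)
    rw [mul_assoc] at h1
    exact h1

theorem GG_mono (h : m ≤ n) (hz : z ∈ GG F u n) : z ∈ GG F u m := by
  refine GG_ind (p := fun z => z ∈ GG F u m) (zero_mem _) (fun x y hx hy => add_mem hx hy) ?_ hz
  intro β μ hμ
  have h1 : (μ : L) ∈ GG F u m := GG_M (hμ.mono h)
  have h2 := Submodule.smul_mem _ β h1
  rw [Algebra.smul_def] at h2
  exact h2

theorem GG_F (β : F) : (β : L) ∈ GG F u 0 := by
  have h1 : ((1 : M) : L) ∈ GG F u 0 := GG_M Ge.one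
  have h2 := GG_mul_F β h1
  rwa [OneMemClass.coe_one, one_mul] at h2

theorem GG_RR (hz : z ∈ GG F u n) : z ∈ RR M F := by
  refine GG_ind (p := fun z => z ∈ RR M F) (zero_mem _) (fun x y hx hy => add_mem hx hy) ?_ hz
  intro β μ _
  exact mul_mem (RR.right β.2) (RR.left μ.2)

theorem RR_GG (hz : z ∈ RR M F) : ∃ n, z ∈ GG F u n := by
  have h := RR.mem_span hz
  clear hz
  induction h using Submodule.closure_induction with
  | zero => exact ⟨0, zero_mem _⟩
  | add x y _ _ hx hy =>
    obtain ⟨n, hn⟩ := hx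
    obtain ⟨m, hm⟩ := hy
    exact ⟨min n m, add_mem (GG_mono (min_le_left _ _) hn) (GG_mono (min_le_right _ _) hm)⟩
  | smul_mem r x h =>
    refine ⟨u.ord ⟨x, h⟩, ?_⟩
    exact Submodule.smul_mem _ r (GG_M (μ := ⟨x, h⟩) (Or.inr le_rfl))

theorem mul_expand {ι : Type*} (b : Module.Basis ι k F) (β : F) (μ : M) :
    (β : L) * (μ : L) = Finsupp.linearCombination M (fun i => (b i : L))
      ((b.repr β).mapRange (fun c => c • μ) (zero_smul _ _)) := by
  rw [Finsupp.linearCombination_apply, Finsupp.sum_mapRange_index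
    (h := fun i (a : M) => a • (b i : L)) (fun i => zero_smul M (b i : L))]
  have h1 : (β : L) = (b.repr β).sum fun i c => c • (b i : L) := by
    conv_lhs => rw [← b.linearCombination_repr β, Finsupp.linearCombination_apply]
    rw [Finsupp.sum, Finsupp.sum, AddSubmonoidClass.coe_finsetSum]
    rfl
  rw [h1, Finsupp.sum, Finsupp.sum, Finset.sum_mul]
  refine Finset.sum_congr rfl fun i _ => ?_
  rw [Algebra.smul_def, Algebra.smul_def (b.repr β i • μ), Algebra.smul_def]
  have h2 : algebraMap M L (algebraMap k M (b.repr β i) * μ) =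
      algebraMap k L (b.repr β i) * (μ : L) := by
    rw [map_mul, ← IsScalarTower.algebraMap_apply]
    rfl
  rw [h2]
  ring

/-- Expansion in a basis. -/
theorem GG_expand {ι : Type*} (b : Module.Basis ι k F) (hz : z ∈ GG F u n) :
    ∃ f : ι →₀ M, (∀ i, Ge u n (f i)) ∧
      z = Finsupp.linearCombination M (fun i => (b i : L)) f := by
  refine GG_ind (p := fun z => ∃ f : ι →₀ M, (∀ i, Ge u n (f i)) ∧
      z = Finsupp.linearCombination M (fun i => (b i : L)) f) ?_ ?_ ?_ hz
  · exact ⟨0, fun i => Ge.zero, by rw [map_zero]⟩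
  · rintro x y ⟨f, hf, rfl⟩ ⟨g, hg, rfl⟩
    exact ⟨f + g, fun i => (hf i).add (hg i), by rw [map_add]⟩
  · intro β μ hμ
    refine ⟨(b.repr β).mapRange (fun c => c • μ) (zero_smul _ _), fun i => ?_,
      mul_expand b β μ⟩
    rw [Finsupp.mapRange_apply, Algebra.smul_def]
    have h1 := (Ge.const (P := u) (b.repr β i)).mul hμ
    rwa [zero_add] at h1

end

section

variable {k L : Type*} [Field k] [Field L] [Algebra k L] [CharZero k] [IsAlgClosed k]
  {M F : IntermediateField k L} {u : Place k M} {n m : ℤ} {z w : L}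

theorem GG_coef (h : Dj M F) {ι : Type*} (b : Module.Basis ι k F) (f : ι →₀ M)
    (hf : Finsupp.linearCombination M (fun i => (b i : L)) f ∈ GG F u n) (i : ι) :
    Ge u n (f i) := by
  obtain ⟨g, hg, e⟩ := GG_expand b hf
  have h1 : Function.Injective (Finsupp.linearCombination M (fun i => (b i : L))) :=
    linDisj' h b b.linearIndependent
  rw [h1 e]
  exact hg i

theorem GG_fam (h : Dj M F) {r : ℕ} (β : Fin r → F) (μ : Fin r → M)
    (hβ : LinearIndependent k β) (hz : ∑ i, (β i : L) * (μ i : L) ∈ GG F u n) (i : Fin r) :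
    Ge u n (μ i) := by
  classical
  set b := Module.Basis.extend (hβ.linearIndepOn_id) with hb
  have hmem : ∀ i, β i ∈ hβ.linearIndepOn_id.extend (Set.subset_univ (Set.range β)) := fun i =>
    hβ.linearIndepOn_id.subset_extend _ ⟨i, rfl⟩
  have hbi : ∀ i, b ⟨β i, hmem i⟩ = β i := fun i => Module.Basis.extend_apply_self _ _
  set f : (hβ.linearIndepOn_id.extend (Set.subset_univ (Set.range β))) →₀ M :=
    ∑ i, Finsupp.single ⟨β i, hmem i⟩ (μ i) with hfdef
  have hf : Finsupp.linearCombination M (fun i => (b i : L)) f =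
      ∑ i, (β i : L) * (μ i : L) := by
    rw [hfdef, map_sum]
    refine Finset.sum_congr rfl fun i _ => ?_
    rw [Finsupp.linearCombination_single, hbi, Algebra.smul_def, mul_comm]
    rfl
  rw [← hf] at hz
  have h1 := GG_coef h b f hz ⟨β i, hmem i⟩
  have h2 : f ⟨β i, hmem i⟩ = μ i := by
    rw [hfdef, Finsupp.finsetSum_apply, Finset.sum_eq_single i]
    · rw [Finsupp.single_eq_same]
    · intro j _ hj
      rw [Finsupp.single_apply, if_neg]
      intro e
      exact hj (hβ.injective (Subtype.mk.inj e))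
    · intro h; exact absurd (Finset.mem_univ i) h
  rwa [h2] at h1

end



section

variable {k L : Type*} [Field k] [Field L] [Algebra k L] [CharZero k] [IsAlgClosed k]
  {M F : IntermediateField k L} {u : Place k M} {n m : ℤ} {z w : L}

theorem exists_low {ι : Type*} (b : ι → F) (f : ι →₀ M)
    (hf : Finsupp.linearCombination M (fun i => (b i : L)) f ∉ GG F u n) : ∃ i, ¬ Ge u n (f i) := by
  by_contra hc
  push Not at hc
  apply hf
  rw [Finsupp.linearCombination_apply, Finsupp.sum]
  refine Submodule.sum_mem _ fun i _ => ?_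
  have h1 : (f i : L) ∈ GG F u n := GG_M (hc i)
  have h2 := GG_mul_F (b i) h1
  rw [Algebra.smul_def]
  exact h2

theorem not_ge_mul {x y : M} (hx : ¬ Ge u 1 x)
    (hy : ¬ Ge u 1 y) : ¬ Ge u 1 (x * y) := by
  intro h
  have h1 : x ≠ 0 := fun h => hx (Or.inl h)
  have h2 : y ≠ 0 := fun h => hy (Or.inl h)
  have h3 := h.resolve_left (mul_ne_zero h1 h2)
  rw [u.ord_mul h1 h2] at h3
  have h4 : u.ord x < 1 := by
    by_contra h; exact hx (Or.inr (not_lt.1 h))
  have h5 : u.ord y < 1 := by
    by_contra h; exact hy (Or.inr (not_lt.1 h))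
  omega

theorem GG_prime (h : Dj M F) (hz : z ∈ GG F u 0) (hw : w ∈ GG F u 0)
    (hzw : z * w ∈ GG F u 1) : z ∈ GG F u 1 ∨ w ∈ GG F u 1 := by
  classical
  set b := Module.Basis.ofVectorSpace k F with hb
  obtain ⟨f, hf, ez⟩ := GG_expand b hz
  obtain ⟨g, hg, ew⟩ := GG_expand b hw
  by_contra hcon
  push Not at hcon
  obtain ⟨hz1, hw1⟩ := hcon
  obtain ⟨i0, hi0⟩ := exists_low b f (ez ▸ hz1)
  obtain ⟨j0, hj0⟩ := exists_low b g (ew ▸ hw1)
  set T : Finset M := f.support.image f ∪ g.support.image g with hTdef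
  have hTge : ∀ x ∈ T, Ge u 0 x := by
    intro x hx
    rw [hTdef, Finset.mem_union, Finset.mem_image, Finset.mem_image] at hx
    rcases hx with ⟨i, -, rfl⟩ | ⟨i, -, rfl⟩
    · exact hf i
    · exact hg i
  have hT : ∀ x ∈ Algebra.adjoin k (T : Set M), Ge u 0 x := by
    intro x hx
    induction hx using Algebra.adjoin_induction with
    | mem x hx => exact hTge x (Finset.mem_coe.1 hx)
    | algebraMap c => exact Ge.const c
    | add x y _ _ hx hy => exact hx.add hy
    | mul x y _ _ hx hy =>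
      have h1 := hx.mul hy
      rwa [zero_add] at h1
  have hfA : ∀ i, f i ∈ Algebra.adjoin k (T : Set M) := by
    intro i
    by_cases h0 : f i = 0
    · rw [h0]; exact zero_mem _
    · exact Algebra.subset_adjoin (Finset.mem_coe.2 (Finset.mem_union_left _
        (Finset.mem_image_of_mem f (Finsupp.mem_support_iff.2 h0))))
  have hgA : ∀ i, g i ∈ Algebra.adjoin k (T : Set M) := by
    intro i
    by_cases h0 : g i = 0
    · rw [h0]; exact zero_mem _
    · exact Algebra.subset_adjoin (Finset.mem_coe.2 (Finset.mem_union_right _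
        (Finset.mem_image_of_mem g (Finsupp.mem_support_iff.2 h0))))
  set f' : _ → Algebra.adjoin k (T : Set M) := fun i => ⟨f i, hfA i⟩ with hf'
  set g' : _ → Algebra.adjoin k (T : Set M) := fun i => ⟨g i, hgA i⟩ with hg'
  obtain ⟨φ, hφ1, hφ2⟩ := Pool.Agent.W381.PG.spec u T hT (f' i0 * g' j0)
    (not_ge_mul hi0 hj0)
  -- the coefficients of the product
  set G : _ →₀ M := ∑ i ∈ f.support, ∑ j ∈ g.support,
    (b.repr (b i * b j)).mapRange (fun c => c • (f i * g j)) (zero_smul _ _) with hG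
  have hzwG : z * w = Finsupp.linearCombination M (fun i => (b i : L)) G := by
    rw [ez, ew, hG, map_sum, Finsupp.linearCombination_apply, Finsupp.linearCombination_apply,
      Finsupp.sum, Finsupp.sum, Finset.sum_mul_sum]
    refine Finset.sum_congr rfl fun i _ => ?_
    rw [map_sum]
    refine Finset.sum_congr rfl fun j _ => ?_
    rw [← mul_expand, Algebra.smul_def, Algebra.smul_def]
    show (f i : L) * (b i : L) * ((g j : L) * (b j : L)) = _
    push_cast
    ring
  have hGl : ∀ l, Ge u 1 (G l) := by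
    intro l
    rw [hzwG] at hzw
    exact GG_coef h b G hzw l
  have hGφ : ∀ l, ∑ i ∈ f.support, ∑ j ∈ g.support,
      b.repr (b i * b j) l * (φ (f' i) * φ (g' j)) = 0 := by
    intro l
    have h1 : ((∑ i ∈ f.support, ∑ j ∈ g.support,
        (b.repr (b i * b j) l) • (f' i * g' j) : Algebra.adjoin k (T : Set M)) : M) = G l := by
      rw [hG, Finsupp.finsetSum_apply, AddSubmonoidClass.coe_finsetSum]
      refine Finset.sum_congr rfl fun i _ => ?_
      rw [Finsupp.finsetSum_apply, AddSubmonoidClass.coe_finsetSum]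
      refine Finset.sum_congr rfl fun j _ => ?_
      rw [Finsupp.mapRange_apply]
      rfl
    have h2 := hφ1 _ (h1 ▸ hGl l)
    rw [map_sum] at h2
    rw [← h2]
    refine Finset.sum_congr rfl fun i _ => ?_
    rw [map_sum]
    refine Finset.sum_congr rfl fun j _ => ?_
    rw [map_smul, map_mul φ, smul_eq_mul]
  have hPQ : (∑ i ∈ f.support, φ (f' i) • b i) * (∑ j ∈ g.support, φ (g' j) • b j) = 0 := by
    apply b.repr.injective
    rw [map_zero]
    ext l
    rw [Finset.sum_mul_sum, map_sum, Finsupp.finsetSum_apply, Finsupp.zero_apply, ← hGφ l]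
    refine Finset.sum_congr rfl fun i _ => ?_
    rw [map_sum, Finsupp.finsetSum_apply]
    refine Finset.sum_congr rfl fun j _ => ?_
    rw [smul_mul_smul_comm, map_smul, Finsupp.smul_apply, smul_eq_mul, mul_comm]
  have hi0' : i0 ∈ f.support := by
    rw [Finsupp.mem_support_iff]
    exact fun h => hi0 (Or.inl h)
  have hj0' : j0 ∈ g.support := by
    rw [Finsupp.mem_support_iff]
    exact fun h => hj0 (Or.inl h)
  apply hφ2
  rw [map_mul]
  rcases mul_eq_zero.1 hPQ with h1 | h1
  · rw [linearIndependent_iff'.1 b.linearIndependent _ _ h1 i0 hi0', zero_mul]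
  · rw [linearIndependent_iff'.1 b.linearIndependent _ _ h1 j0 hj0', mul_zero]

end



section

variable {k L : Type*} [Field k] [Field L] [Algebra k L] [CharZero k] [IsAlgClosed k]
  {M F : IntermediateField k L} {u : Place k M} {n m : ℤ} {z w : L}

theorem GG_coe_M (h : Dj M F) {μ : M} (hμ : (μ : L) ∈ GG F u n) : Ge u n μ := by
  have h1 := GG_fam h (u := u) (n := n) (r := 1) (fun _ => (1 : F)) (fun _ => μ)
    (LinearIndependent.of_subsingleton (0 : Fin 1) one_ne_zero) (by
      rw [Finset.univ_unique, Finset.sum_singleton]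
      show ((1 : F) : L) * (μ : L) ∈ GG F u n
      rw [OneMemClass.coe_one, one_mul]
      exact hμ) 0
  exact h1

theorem GG_coe_F (h : Dj M F) {β : F} (h0 : β ≠ 0) (hβ : (β : L) ∈ GG F u n) : n ≤ 0 := by
  have h1 := GG_fam h (u := u) (n := n) (r := 1) (fun _ => β) (fun _ => (1 : M))
    (LinearIndependent.of_subsingleton (0 : Fin 1) h0) (by
      rw [Finset.univ_unique, Finset.sum_singleton]
      show (β : L) * ((1 : M) : L) ∈ GG F u n
      rw [OneMemClass.coe_one, mul_one]
      exact hβ) 0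
  rcases h1 with h1 | h1
  · exact absurd h1 one_ne_zero
  · rwa [u.ord_one] at h1

/-- `z` has order `n`. -/
def Nr (F : IntermediateField k L) (u : Place k M) (z : L) (n : ℤ) : Prop :=
  z ∈ GG F u n ∧ z ∉ GG F u (n + 1)

theorem Nr.le (hz : Nr F u z n) (hm : z ∈ GG F u m) : m ≤ n := by
  by_contra hc
  exact hz.2 (GG_mono (by omega) hm)

theorem Nr.unique (hz : Nr F u z n) (hz' : Nr F u z m) : n = m :=
  le_antisymm (hz'.le hz.1) (hz.le hz'.1)

theorem Nr.ne (hz : Nr F u z n) : z ≠ 0 := by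
  rintro rfl
  exact hz.2 (zero_mem _)

theorem Nr.mem (hz : Nr F u z n) : z ∈ RR M F := GG_RR hz.1

theorem Nr.exists (h : Dj M F) (u : Place k M) (hz : z ∈ RR M F) (h0 : z ≠ 0) :
    ∃ n, Nr F u z n := by
  classical
  obtain ⟨n0, hn0⟩ := RR_GG (u := u) hz
  obtain ⟨f, hf, e⟩ := GG_expand (Module.Basis.ofVectorSpace k F) hn0
  have hf0 : f ≠ 0 := by
    rintro rfl
    rw [map_zero] at e
    exact h0 e
  obtain ⟨i, hi⟩ := Finsupp.ne_iff.1 hf0
  have hi' : f i ≠ 0 := hi
  obtain ⟨n, hn, hmax⟩ := Int.exists_greatest_of_bdd (P := fun n => z ∈ GG F u n)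
    ⟨u.ord (f i), fun m hm => by
      have h1 := GG_coef h (Module.Basis.ofVectorSpace k F) f (e ▸ hm) i
      exact h1.resolve_left hi'⟩ ⟨n0, hn0⟩
  exact ⟨n, hn, fun hc => by have := hmax _ hc; omega⟩

theorem Nr.scale {μ : M} (hμ : μ ≠ 0) (hz : Nr F u z n) : Nr F u (z * (μ : L)) (n + u.ord μ) := by
  refine ⟨GG_mul_M (Or.inr le_rfl) hz.1, fun hc => hz.2 ?_⟩
  have h1 : Ge u (-u.ord μ) μ⁻¹ := Or.inr (by rw [u.ord_inv])
  have h2 := GG_mul_M h1 hc
  have h3 : z * (μ : L) * ((μ⁻¹ : M) : L) = z := by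
    have h4 : (μ : L) ≠ 0 := fun h => hμ (Subtype.ext h)
    push_cast
    rw [mul_assoc, mul_inv_cancel₀ h4, mul_one]
  rw [h3] at h2
  exact GG_mono (by omega) h2

theorem Nr.mul (h : Dj M F) (hz : Nr F u z n) (hw : Nr F u w m) : Nr F u (z * w) (n + m) := by
  refine ⟨GG_mul hz.1 hw.1, fun hc => ?_⟩
  obtain ⟨t, ht0, ht⟩ := u.surj
  have h1 := hz.scale (zpow_ne_zero (-n) ht0)
  have h2 := hw.scale (zpow_ne_zero (-m) ht0)
  rw [u.ord_zpow, ht, mul_one, add_neg_cancel] at h1 h2
  have h3 : Ge u (-n + -m) (t ^ (-n) * t ^ (-m)) := by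
    right
    rw [u.ord_mul (zpow_ne_zero _ ht0) (zpow_ne_zero _ ht0), u.ord_zpow, u.ord_zpow, ht, mul_one,
      mul_one]
  have h4 := GG_mul_M h3 hc
  have h5 : z * w * ((t ^ (-n) * t ^ (-m) : M) : L) =
      (z * ((t ^ (-n) : M) : L)) * (w * ((t ^ (-m) : M) : L)) := by
    push_cast
    ring
  rw [h5] at h4
  rcases GG_prime h h1.1 h2.1 (GG_mono (by omega) h4) with h6 | h6
  · exact h1.2 (GG_mono (by omega) h6)
  · exact h2.2 (GG_mono (by omega) h6)

theorem Nr.of_M (h : Dj M F) {μ : M} (hμ : μ ≠ 0) : Nr F u (μ : L) (u.ord μ) := by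
  refine ⟨GG_M (Or.inr le_rfl), fun hc => ?_⟩
  have h1 := (GG_coe_M h hc).resolve_left hμ
  omega

theorem Nr.of_F (h : Dj M F) {β : F} (hβ : β ≠ 0) : Nr F u (β : L) 0 := by
  refine ⟨GG_F β, fun hc => ?_⟩
  have h1 := GG_coe_F h hβ hc
  omega

/-- `z` is a fraction of order `n`. -/
def Or' (F : IntermediateField k L) (u : Place k M) (z : L) (n : ℤ) : Prop :=
  ∃ (a b : L) (p q : ℤ), Nr F u a p ∧ Nr F u b q ∧ z = a / b ∧ n = p - q

theorem Or'.unique (h : Dj M F) (hz : Or' F u z n) (hz' : Or' F u z m) : n = m := by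
  obtain ⟨a, b, p, q, ha, hb, rfl, rfl⟩ := hz
  obtain ⟨a', b', p', q', ha', hb', e, rfl⟩ := hz'
  have h1 : a * b' = a' * b := by
    have := hb.ne
    have := hb'.ne
    rw [div_eq_div_iff (by assumption) (by assumption)] at e
    exact e
  have h2 := (ha.mul h hb').unique (h1 ▸ ha'.mul h hb)
  omega

theorem Or'.exists (h : Dj M F) (u : Place k M) (h0 : z ≠ 0) : ∃ n, Or' F u z n := by
  obtain ⟨a, ha, b, hb, hb0, rfl⟩ := h.frac z
  have ha0 : a ≠ 0 := by
    rintro rfl
    exact h0 (zero_div _)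
  obtain ⟨p, hp⟩ := Nr.exists h u ha ha0
  obtain ⟨q, hq⟩ := Nr.exists h u hb hb0
  exact ⟨p - q, a, b, p, q, hp, hq, rfl, rfl⟩

theorem Nr.one (h : Dj M F) : Nr F u 1 0 := by
  have h1 := Nr.of_F (u := u) h (one_ne_zero (α := F))
  exact h1

theorem Nr.or (h : Dj M F) (hz : Nr F u z n) : Or' F u z n :=
  ⟨z, 1, n, 0, hz, Nr.one h, (div_one z).symm, (sub_zero n).symm⟩

theorem Or'.mul (h : Dj M F) (hz : Or' F u z n) (hw : Or' F u w m) :
    Or' F u (z * w) (n + m) := by
  obtain ⟨a, b, p, q, ha, hb, rfl, rfl⟩ := hz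
  obtain ⟨a', b', p', q', ha', hb', rfl, rfl⟩ := hw
  exact ⟨a * a', b * b', p + p', q + q', ha.mul h ha', hb.mul h hb', div_mul_div_comm _ _ _ _,
    by ring⟩

theorem Or'.add (h : Dj M F) (hz : Or' F u z n) (hw : Or' F u w m) (h0 : z + w ≠ 0) :
    ∃ r, Or' F u (z + w) r ∧ min n m ≤ r := by
  obtain ⟨a, b, p, q, ha, hb, rfl, rfl⟩ := hz
  obtain ⟨a', b', p', q', ha', hb', rfl, rfl⟩ := hw
  have e : a / b + a' / b' = (a * b' + b * a') / (b * b') := div_add_div _ _ hb.ne hb'.ne
  have hne : a * b' + b * a' ≠ 0 := by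
    intro hc
    rw [e, hc, zero_div] at h0
    exact h0 rfl
  have h1 := ha.mul h hb'
  have h2 := hb.mul h ha'
  obtain ⟨s, hs⟩ := Nr.exists h u (add_mem h1.mem h2.mem) hne
  have h3 : min (p + q') (q + p') ≤ s :=
    hs.le (add_mem (GG_mono (min_le_left _ _) h1.1) (GG_mono (min_le_right _ _) h2.1))
  refine ⟨s - (q + q'), ⟨_, _, s, q + q', hs, hb.mul h hb', e, rfl⟩, ?_⟩
  rcases min_choice (p + q') (q + p') with h4 | h4
  · refine (min_le_left _ _).trans ?_
    omega
  · refine (min_le_right _ _).trans ?_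
    omega

open Classical in
/-- The order. -/
noncomputable def od (h : Dj M F) (u : Place k M) (z : L) : ℤ :=
  if h0 : z = 0 then 0 else (Or'.exists h u h0).choose

theorem od_eq (h : Dj M F) (hz : Or' F u z n) : od h u z = n := by
  have h0 : z ≠ 0 := by
    obtain ⟨a, b, p, q, ha, hb, rfl, rfl⟩ := hz
    exact div_ne_zero ha.ne hb.ne
  unfold od
  rw [dif_neg h0]
  exact (Or'.exists h u h0).choose_spec.unique h hz

/-- The Gauss extension. -/
noncomputable def UU (h : Dj M F) (u : Place k M) : Place k L where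
  ord := od h u
  ord_zero := by
    unfold od
    rw [dif_pos rfl]
  ord_mul := fun {f g} hf hg => by
    obtain ⟨n, hn⟩ := Or'.exists h u hf
    obtain ⟨m, hm⟩ := Or'.exists h u hg
    rw [od_eq h hn, od_eq h hm, od_eq h (hn.mul h hm)]
  ord_add := fun {f g} hf hg hfg => by
    obtain ⟨n, hn⟩ := Or'.exists h u hf
    obtain ⟨m, hm⟩ := Or'.exists h u hg
    obtain ⟨r, hr, hr2⟩ := hn.add h hm hfg
    rw [od_eq h hn, od_eq h hm, od_eq h hr]
    exact hr2
  ord_const := fun {c} hc => by
    have h1 : algebraMap k M c ≠ 0 := by simpa using hc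
    have h2 := Nr.of_M (F := F) (u := u) h h1
    rw [u.ord_const hc] at h2
    exact od_eq h (h2.or h)
  surj := by
    obtain ⟨t, ht0, ht⟩ := u.surj
    have h2 := Nr.of_M (F := F) (u := u) h ht0
    rw [ht] at h2
    exact ⟨t, h2.ne, od_eq h (h2.or h)⟩

theorem UU_M (h : Dj M F) (u : Place k M) (μ : M) : (UU h u).ord (μ : L) = u.ord μ := by
  by_cases h0 : μ = 0
  · rw [h0, u.ord_zero]
    exact (UU h u).ord_zero
  · exact od_eq h ((Nr.of_M h h0).or h)

theorem UU_F (h : Dj M F) (u : Place k M) (β : F) : (UU h u).ord (β : L) = 0 := by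
  by_cases h0 : β = 0
  · rw [h0]
    exact (UU h u).ord_zero
  · exact od_eq h ((Nr.of_F h h0).or h)

theorem UU_GG (h : Dj M F) (u : Place k M) (hz : z ∈ RR M F) (hn : Ge (UU h u) n z) :
    z ∈ GG F u n := by
  by_cases h0 : z = 0
  · rw [h0]; exact zero_mem _
  · obtain ⟨m, hm⟩ := Nr.exists h u hz h0
    have h1 := hn.resolve_left h0
    have h2 : (UU h u).ord z = m := od_eq h (hm.or h)
    rw [h2] at h1
    exact GG_mono h1 hm.1

theorem GG_UU (h : Dj M F) (u : Place k M) (hz : z ∈ GG F u n) : Ge (UU h u) n z := by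
  by_cases h0 : z = 0
  · exact Or.inl h0
  · obtain ⟨m, hm⟩ := Nr.exists h u (GG_RR hz) h0
    right
    have h2 : (UU h u).ord z = m := od_eq h (hm.or h)
    rw [h2]
    exact hm.le hz

theorem UU_fam (h : Dj M F) (u : Place k M) (r : ℕ) (β : Fin r → F) (μ : Fin r → M) (c : ℤ)
    (hβ : LinearIndependent k β) (hz : Ge (UU h u) c (∑ i, (β i : L) * (μ i : L))) (i : Fin r) :
    Ge u c (μ i) := by
  refine GG_fam h β μ hβ (UU_GG h u ?_ hz) i
  exact Subalgebra.sum_mem _ fun i _ => mul_mem (RR.right (β i).2) (RR.left (μ i).2)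

end



section

variable {k L : Type*} [Field k] [Field L] [Algebra k L] [CharZero k] [IsAlgClosed k]
  {M F : IntermediateField k L} {n m : ℤ} {z w : L}

theorem GG_der (u : Place k M) (D : Derivation k L L)
    (hM : ∀ μ : M, u.Reg μ → ∃ μ' : M, D (μ : L) = (μ' : L) ∧ u.Reg μ')
    (hF : ∀ β : F, ∃ β' : F, D (β : L) = (β' : L)) (hz : z ∈ GG F u 0) : D z ∈ GG F u 0 := by
  refine GG_ind (p := fun z => D z ∈ GG F u 0) ?_ ?_ ?_ hz
  · rw [map_zero]; exact zero_mem _
  · intro x y hx hy
    rw [map_add]; exact add_mem hx hy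
  · intro β μ hμ
    obtain ⟨μ', h1, h2⟩ := hM μ hμ
    obtain ⟨β', h3⟩ := hF β
    rw [D.leibniz, h1, h3, smul_eq_mul, smul_eq_mul]
    refine add_mem ?_ ?_
    · rw [mul_comm]
      exact GG_mul_F β (GG_M h2)
    · exact GG_mul_F β' (GG_M hμ)

theorem UU_pres (h : Dj M F) (u : Place k M) (D : Derivation k L L)
    (hM : ∀ μ : M, u.Reg μ → ∃ μ' : M, D (μ : L) = (μ' : L) ∧ u.Reg μ')
    (hF : ∀ β : F, ∃ β' : F, D (β : L) = (β' : L)) : Pres (UU h u) D := by
  intro z hz
  by_cases h0 : z = 0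
  · rw [h0, map_zero]; exact Or.inl rfl
  obtain ⟨n, hn⟩ := Or'.exists h u h0
  have hn0 : 0 ≤ n := by
    have h1 := hz.resolve_left h0
    have h2 : (UU h u).ord z = n := od_eq h hn
    rwa [h2] at h1
  obtain ⟨a, b, p, q, ha, hb, rfl, rfl⟩ := hn
  obtain ⟨t, ht0, ht⟩ := u.surj
  have htn : t ^ (-q) ≠ 0 := zpow_ne_zero _ ht0
  have htL : ((t ^ (-q) : M) : L) ≠ 0 := fun hc => htn (Subtype.ext hc)
  have h1 := ha.scale htn
  have h2 := hb.scale htn
  rw [u.ord_zpow, ht, mul_one] at h1 h2
  rw [add_neg_cancel] at h2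
  have e1 : a / b = (a * ((t ^ (-q) : M) : L)) / (b * ((t ^ (-q) : M) : L)) :=
    (mul_div_mul_right _ _ htL).symm
  set A := a * ((t ^ (-q) : M) : L) with hA
  set B := b * ((t ^ (-q) : M) : L) with hB
  rw [e1]
  have hA0 : A ∈ GG F u 0 := GG_mono (by omega) h1.1
  have hB0 : B ∈ GG F u 0 := h2.1
  have hDA := GG_der u D hM hF hA0
  have hDB := GG_der u D hM hF hB0
  have hnum : B * D A - A * D B ∈ GG F u 0 := by
    have h3 := GG_mul hB0 hDA
    have h4 := GG_mul hA0 hDB
    rw [add_zero] at h3 h4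
    exact sub_mem h3 h4
  have hnum' := GG_UU h u hnum
  have hBord : (UU h u).ord B = 0 := od_eq h (h2.or h)
  rw [D.leibniz_div, smul_eq_mul, smul_eq_mul, smul_eq_mul]
  have hinv : Ge (UU h u) 0 (B⁻¹ ^ 2) := by
    right
    rw [(UU h u).ord_pow, (UU h u).ord_inv, hBord]
    simp
  have h5 := hinv.mul hnum'
  rw [add_zero] at h5
  exact h5


end

section

open MvPolynomial

/-- monomials in algebraically independent elements are linearly independent -/
theorem linInd_mono {k K : Type*} [Field k] [Field K] [Algebra k K] {n : ℕ} {t : Fin n → K}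
    (ht : AlgebraicIndependent k t) :
    LinearIndependent k (fun m : Fin n →₀ ℕ => ∏ i, t i ^ m i) := by
  have h1 := (basisMonomials (Fin n) k).linearIndependent.map'
    (aeval (R := k) t).toLinearMap (LinearMap.ker_eq_bot.2 ht)
  have h3 : (fun m : Fin n →₀ ℕ => ∏ i, t i ^ m i) =
      ((aeval (R := k) t).toLinearMap ∘ (basisMonomials (Fin n) k)) := by
    funext m
    change _ = aeval (R := k) t (basisMonomials (Fin n) k m)
    rw [coe_basisMonomials, aeval_monomial, map_one, one_mul, Finsupp.prod_fintype]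
    exact fun _ => pow_zero _
  rw [h3]
  exact h1

theorem aeval_sum {k K : Type*} [Field k] [Field K] [Algebra k K] {n e : ℕ} (t : Fin n → K)
    (y : Fin e → K) (p : MvPolynomial (Fin n ⊕ Fin e) k) :
    aeval (Sum.elim t y) p =
      ∑ m ∈ (sumAlgEquiv k (Fin n) (Fin e) p).support,
        (∏ i, t i ^ m i) * aeval y (coeff m (sumAlgEquiv k (Fin n) (Fin e) p)) := by
  have h1 : aeval (Sum.elim t y) p =
      eval₂ ((aeval (R := k) y : MvPolynomial (Fin e) k →ₐ[k] K) : MvPolynomial (Fin e) k →+* K) t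
        (sumAlgEquiv k (Fin n) (Fin e) p) := by
    induction p using MvPolynomial.induction_on with
    | C a =>
      rw [aeval_C, sumAlgEquiv_C_inl, eval₂_C]
      change _ = aeval y (C a)
      rw [aeval_C]
    | add p q hp hq => rw [map_add, map_add, eval₂_add, hp, hq]
    | mul_X p i hp =>
      rw [map_mul, map_mul, eval₂_mul, hp, aeval_X]
      congr 1
      rcases i with i | i
      · rw [sumAlgEquiv_X_inl, eval₂_X]
        rfl
      · rw [sumAlgEquiv_X_inr, eval₂_C]
        change _ = aeval y (X i)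
        rw [aeval_X]
        rfl
  rw [h1, eval₂_eq']
  exact Finset.sum_congr rfl fun m _ => mul_comm _ _

end

section

variable {k L : Type*} [Field k] [Field L] [Algebra k L] [CharZero k] [IsAlgClosed k]
  {M F : IntermediateField k L}

theorem UU_div (h : Dj M F) (u : Place k M) (d n : ℕ) (hd : Algebra.trdeg k M = d)
    (hn : Algebra.trdeg k F = n) (hu : IsDivisorial u d) : IsDivisorial (UU h u) (n + d) := by
  classical
  obtain ⟨t, ht⟩ := Pool.Agent.W636.PG.exists_basis k F n hn
  cases d with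
  | zero =>
    exfalso
    obtain ⟨s, hs0, hs⟩ := u.surj
    have h1 : Transcendental k s := u.transcendental_of_ord_ne (by omega)
    have h2 : Algebra.IsAlgebraic k M := by
      rw [← _root_.trdeg_eq_zero_iff, hd, Nat.cast_zero]
    exact h1 (h2.isAlgebraic s)
  | succ e =>
    obtain ⟨y, hy⟩ := hu
    obtain ⟨y0, hy'⟩ : ∃ y0 : Fin e → M, ∀ p : MvPolynomial (Fin e) k, p ≠ 0 →
      MvPolynomial.aeval (R := k) y0 p ≠ 0 ∧ u.ord (MvPolynomial.aeval (R := k) y0 p) = 0 :=
      ⟨fun i => y i, hy⟩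
    let y1 : Fin e → L := fun i => (y0 i : L)
    let t1 : Fin n → L := fun i => (t i : L)
    have hcoe : ∀ q : MvPolynomial (Fin e) k, MvPolynomial.aeval (R := k) y1 q =
        ((MvPolynomial.aeval (R := k) y0 q : M) : L) := by
      intro q
      exact MvPolynomial.aeval_algebraMap_apply L y0 q
    refine ⟨(Sum.elim t1 y1 ∘ finSumFinEquiv.symm : Fin (n + e) → L), fun p hp => ?_⟩
    obtain ⟨p', hp'⟩ : ∃ p', p' = MvPolynomial.rename finSumFinEquiv.symm p := ⟨_, rfl⟩
    have hp'0 : p' ≠ 0 := by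
      rw [hp']
      intro h0
      exact hp ((MvPolynomial.rename_injective _ (finSumFinEquiv.symm.injective)
        (by rw [h0, map_zero])))
    obtain ⟨q, hq⟩ : ∃ q, q = MvPolynomial.sumAlgEquiv k (Fin n) (Fin e) p' := ⟨_, rfl⟩
    have hq0 : q ≠ 0 := by
      rw [hq]
      exact (map_ne_zero_iff _ (MvPolynomial.sumAlgEquiv k (Fin n) (Fin e)).injective).2 hp'0
    let ε := q.support.equivFin
    have e1 : MvPolynomial.aeval (R := k) (Sum.elim t1 y1 ∘ finSumFinEquiv.symm) p =
        ∑ j : Fin q.support.card, (((∏ i, t i ^ (ε.symm j : Fin n →₀ ℕ) i : F)) : L) *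
          ((MvPolynomial.aeval (R := k) y0
            (MvPolynomial.coeff (ε.symm j : Fin n →₀ ℕ) q) : M) : L) := by
      rw [← MvPolynomial.aeval_rename, ← hp', aeval_sum, ← hq, ← Finset.sum_coe_sort q.support,
        ← Equiv.sum_comp ε.symm]
      refine Finset.sum_congr rfl fun j _ => ?_
      rw [hcoe]
      congr 1
      change _ = algebraMap F L _
      rw [map_prod]
      exact Finset.prod_congr rfl fun i _ => by rw [map_pow]; rfl
    have hge : Ge (UU h u) 0
        (MvPolynomial.aeval (R := k) (Sum.elim t1 y1 ∘ finSumFinEquiv.symm) p) := by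
      rw [e1]
      refine Ge.sum _ _ fun j _ => ?_
      have h1 : Ge (UU h u) 0 ((MvPolynomial.aeval (R := k) y0
              (MvPolynomial.coeff (ε.symm j : Fin n →₀ ℕ) q) : M) : L) := by
        by_cases h2 : MvPolynomial.coeff (ε.symm j : Fin n →₀ ℕ) q = 0
        · left
          rw [h2, map_zero]
          rfl
        · right
          rw [UU_M]
          exact (hy' _ h2).2.ge
      have h3 : Ge (UU h u) 0 ((∏ i, t i ^ (ε.symm j : Fin n →₀ ℕ) i : F) : L) :=
        Or.inr (UU_F h u _).ge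
      have h4 := h3.mul h1
      rwa [zero_add] at h4
    have hli : LinearIndependent k (fun j : Fin q.support.card =>
        (∏ i, t i ^ (ε.symm j : Fin n →₀ ℕ) i : F)) :=
      (linInd_mono ht.1).comp (fun j => (ε.symm j : Fin n →₀ ℕ))
        (fun a b hab => ε.symm.injective (Subtype.ext hab))
    have hnge : ¬ Ge (UU h u) 1
        (MvPolynomial.aeval (R := k) (Sum.elim t1 y1 ∘ finSumFinEquiv.symm) p) := by
      intro hc
      rw [e1] at hc
      obtain ⟨m, hm⟩ : ∃ m, m ∈ q.support := by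
        by_contra hcon
        push Not at hcon
        exact hq0 (MvPolynomial.support_eq_empty.1 (Finset.eq_empty_of_forall_notMem hcon))
      have h1 := UU_fam h u _ _ _ 1 hli hc (ε ⟨m, hm⟩)
      rw [Equiv.symm_apply_apply] at h1
      have h3 := hy' _ (MvPolynomial.mem_support_iff.1 hm)
      rcases h1 with h1 | h1
      · exact h3.1 h1
      · have h4 := h3.2
        change 1 ≤ u.ord (MvPolynomial.aeval (R := k) y0 (MvPolynomial.coeff m q)) at h1
        omega
    refine ⟨fun h0 => hnge (Or.inl h0), ?_⟩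
    rcases hge with h1 | h1
    · exact absurd (Or.inl h1) hnge
    · by_contra h2
      exact hnge (Or.inr (by
        have h3 : (UU h u).ord (MvPolynomial.aeval (R := k)
          (Sum.elim t1 y1 ∘ finSumFinEquiv.symm) p) ≠ 0 := h2
        omega))

end

end Pool.Agent.Q298.IS
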