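import Pool.Agent.Q298.IS.Num

/-! The numerical dimension of a product of two varieties is at most the sum of the numerical
dimensions. -/

set_option autoImplicit false
set_option linter.overlappingInstances false
set_option linter.unusedSectionVars false

open FF Pool.Agent.W619.PQ Pool.Agent.W619.PL Pool.Agent.W619.TW
  Pool.Agent.W603.LV Pool.Agent.Y191 Pool.Agent.Y174
open Pool.Agent.Y173.QA Pool.Agent.TH122.AB Pool.Agent.W619.Y MvPolynomial
open scoped TensorProduct

namespace Pool.Agent.Q298.IS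

section

variable {K : Type} [Field K] [Algebra ℂ K] {M F : IntermediateField ℂ K} {n r : ℕ}

/-- independent coefficients which span -/
theorem TT_basis {y : Fin r → M} (hy : IsTranscendenceBasis ℂ y) {S' : Finset M} {C a m : ℕ}
    (hC : ∀ N : ℕ, HasIndep ℂ M r N (IsSec ℂ M r (fun _ => False) S' m 1) → N ≤ C * m ^ a) :
    ∃ (p : ℕ) (τ : Fin p → M), p ≤ C * m ^ a ∧ LinearIndependent ℂ τ ∧
      ∀ μ ∈ TT y S' m, ∃ c : Fin p → ℂ, μ = ∑ j, c j • τ j := by
  classical
  obtain ⟨b, hbT, hbs, hbl⟩ := exists_linearIndependent ℂ (TT y S' m)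
  have h1 : ∀ s : Finset M, (s : Set M) ⊆ b → s.card ≤ C * m ^ a := by
    intro s hs
    refine TT_card hy hC s.card (fun i => (s.equivFin.symm i : M)) ?_ fun i =>
      hbT (hs (s.equivFin.symm i).2)
    have h2 : LinearIndepOn ℂ (id : M → M) (s : Set M) := LinearIndepOn.mono (s := b) hbl hs
    exact h2.comp _ s.equivFin.symm.injective
  have hfin : b.Finite := by
    by_contra hinf
    obtain ⟨s, hs, hc⟩ := Set.Infinite.exists_subset_card_eq hinf (C * m ^ a + 1)
    have := h1 s hs
    omega
  obtain ⟨s, hs⟩ : ∃ s : Finset M, (s : Set M) = b := ⟨hfin.toFinset, hfin.coe_toFinset⟩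
  refine ⟨s.card, fun i => (s.equivFin.symm i : M), h1 s hs.le, ?_, fun μ hμ => ?_⟩
  · have h2 : LinearIndepOn ℂ (id : M → M) (s : Set M) := by
      rw [hs]
      exact hbl
    exact h2.comp _ s.equivFin.symm.injective
  · have h2 : μ ∈ Submodule.span ℂ (Set.range fun i => (s.equivFin.symm i : M)) := by
      have h3 : Set.range (fun i => (s.equivFin.symm i : M)) = b := by
        rw [← hs]
        ext z
        constructor
        · rintro ⟨i, rfl⟩
          exact (s.equivFin.symm i).2
        · intro hz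
          exact ⟨s.equivFin ⟨z, hz⟩, by simp⟩
      rw [h3, hbs]
      exact Submodule.subset_span hμ
    obtain ⟨c, hc⟩ := (Submodule.mem_span_range_iff_exists_fun ℂ).1 h2
    exact ⟨c, hc.symm⟩

/-- the order of the vector fields does not matter -/
theorem sec_swap {S : Finset K} {m : ℕ} {ω : (Fin (n + r) → Derivation ℂ K K) → K}
    (h : IsSec ℂ K (n + r) (fun _ => False) S m 1 ω) :
    IsSec ℂ K (r + n) (fun _ => False) S m 1 (fun D => ω fun i => D (finAddFlip i)) := by
  refine ⟨fun A D => ?_, fun v hv hf D hD => ?_, fun v _ hf => hf.elim⟩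
  · have h1 := h.1 (A.submatrix finAddFlip finAddFlip) (fun i => D (finAddFlip i))
    rw [Matrix.det_submatrix_equiv_self] at h1
    change ω (fun i => ∑ c, A (finAddFlip i) c • D c) = _
    rw [← h1]
    congr 1
    funext i
    exact (Equiv.sum_comp (finAddFlip (m := n) (n := r))
      (fun c => A (finAddFlip i) c • D c)).symm
  · exact h.2.1 v (by rw [add_comm]; exact hv) hf _ fun l => hD _

/-- the facts on the frame of a product -/
theorem frame_facts {t : Fin n → F} (ht : IsTranscendenceBasis ℂ t)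
    {y : Fin r → M} (hy : IsTranscendenceBasis ℂ y) {E : Fin (n + r) → Derivation ℂ K K}
    (hE : ∀ i j, E i (Fin.append (algebraMap F K ∘ t) (fun j => (y j : K)) j) =
      if i = j then 1 else 0) :
    (∀ (i : Fin n) (μ : M), E (Fin.castAdd r i) (μ : K) = 0) ∧
    (∀ (j : Fin r) (β : F), E (Fin.natAdd n j) (β : K) = 0) ∧
    (∀ (i : Fin n) (β : F), ∃ β' : F, E (Fin.castAdd r i) (β : K) = (β' : K)) ∧
    (∀ (l : Fin r) (μ : M), ∃ μ' : M, E (Fin.natAdd n l) (μ : K) = (μ' : K)) ∧
    (∀ l j, E (Fin.natAdd n l) (y j : K) = if l = j then 1 else 0) ∧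
    (∀ l j, E (Fin.castAdd r l) (t j : K) = if l = j then 1 else 0) := by
  classical
  have hcM : CharZero M := charZero_of_injective_algebraMap (algebraMap ℂ M).injective
  have hcF : CharZero F := charZero_of_injective_algebraMap (algebraMap ℂ F).injective
  have hEt : ∀ i j, E i (t j : K) = if i = Fin.castAdd r j then 1 else 0 := by
    intro i j
    have h1 := hE i (Fin.castAdd r j)
    rwa [Fin.append_left] at h1
  have hEy' : ∀ i j, E i (y j : K) = if i = Fin.natAdd n j then 1 else 0 := by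
    intro i j
    have h1 := hE i (Fin.natAdd n j)
    rwa [Fin.append_right] at h1
  have hcn : ∀ (i : Fin n) (j : Fin r), Fin.castAdd r i ≠ Fin.natAdd n j := by
    intro i j h
    have h1 := congrArg Fin.val h
    simp at h1
    omega
  refine ⟨?_, ?_, ?_, ?_, ?_, ?_⟩
  · intro i μ
    refine der_zero (K := M) (L := K) ((E (Fin.castAdd r i)).compAlgebraMap M) y hy (fun j => ?_) μ
    change E (Fin.castAdd r i) (y j : K) = 0
    rw [hEy', if_neg (hcn i j)]
  · intro j β
    refine der_zero (K := F) (L := K) ((E (Fin.natAdd n j)).compAlgebraMap F) t ht (fun i => ?_) β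
    change E (Fin.natAdd n j) (t i : K) = 0
    rw [hEt, if_neg (Ne.symm (hcn i j))]
  · intro i β
    obtain ⟨δ, hδ⟩ := Pool.Agent.W602.GT.exists_der (L := ℂ) t ht
      (fun j => if i = j then (1 : F) else 0)
    refine ⟨δ β, ?_⟩
    refine der_comp (K := F) (L := K) δ (E (Fin.castAdd r i)) t ht (fun j => ?_) β
    change E (Fin.castAdd r i) (t j : K) = algebraMap F K (δ (t j))
    rw [hEt, hδ]
    by_cases hij : i = j
    · subst hij
      rw [if_pos rfl, if_pos rfl, map_one]
    · rw [if_neg hij, if_neg (fun h => hij (Fin.castAdd_injective n r h)), map_zero]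
  · intro l μ
    obtain ⟨δ, hδ⟩ := Pool.Agent.W602.GT.exists_der (L := ℂ) y hy
      (fun j => if l = j then (1 : M) else 0)
    refine ⟨δ μ, ?_⟩
    refine der_comp (K := M) (L := K) δ (E (Fin.natAdd n l)) y hy (fun j => ?_) μ
    change E (Fin.natAdd n l) (y j : K) = algebraMap M K (δ (y j))
    rw [hEy', hδ]
    by_cases hij : l = j
    · subst hij
      rw [if_pos rfl, if_pos rfl, map_one]
    · rw [if_neg hij, if_neg (fun h => hij (Fin.natAdd_injective r n h)), map_zero]
  · intro l j
    rw [hEy']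
    by_cases hij : l = j
    · subst hij
      rw [if_pos rfl, if_pos rfl]
    · rw [if_neg hij, if_neg (fun h => hij (Fin.natAdd_injective r n h))]
  · intro l j
    rw [hEt]
    by_cases hij : l = j
    · subst hij
      rw [if_pos rfl, if_pos rfl]
    · rw [if_neg hij, if_neg (fun h => hij (Fin.castAdd_injective n r h))]

/-- sections are in the ring generated by the factors, up to a fixed factor -/
theorem iso_mem [Algebra.EssFiniteType ℂ K]
    (hK : Algebra.trdeg ℂ K = (n + r : ℕ)) (hsup : M ⊔ F = ⊤)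
    (hcl : Pool.Agent.Y172.Closed F) {t : Fin n → F} (ht : IsTranscendenceBasis ℂ t)
    {y : Fin r → M} (hy : IsTranscendenceBasis ℂ y)
    (hx : IsTranscendenceBasis F (fun j => (y j : K)))
    {E : Fin (n + r) → Derivation ℂ K K}
    (hE : ∀ i j, E i (Fin.append (algebraMap F K ∘ t) (fun j => (y j : K)) j) =
      if i = j then 1 else 0) (S : Finset K) :
    ∃ b0 : K, b0 ≠ 0 ∧ ∀ (m : ℕ) (ω : (Fin (n + r) → Derivation ℂ K K) → K),
      IsSec ℂ K (n + r) (fun _ => False) S m 1 ω → b0 * ω E ∈ RR M F := by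
  classical
  have hD := dj_of hsup hy hx
  have hcF : CharZero F := charZero_of_injective_algebraMap (algebraMap ℂ F).injective
  have hfd := fd_basisF hx
  obtain ⟨hEM, hEF, hEF', hEM', hEy, -⟩ := frame_facts ht hy hE
  obtain ⟨c, hc0, hc⟩ := clear_good (M := M) (F := F) hsup hy hx
  obtain ⟨b, hb0, hb⟩ := exists_den hD S
  obtain ⟨p, z, e, D, hfr⟩ := exists_FrF hK hcl hx
  refine ⟨c * b, mul_ne_zero hc0 hb0, fun m ω hω => ?_⟩
  rw [mul_assoc]
  refine hc _ fun P g hg hgood hP => ?_
  have hdiv : IsDivisorial P (n + r) := hP.divisorial hfr hg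
  have hpres : ∀ i, Pres P (E i) := by
    intro i
    refine Fin.addCases (fun i => ?_) (fun l => ?_) i
    · exact pres_good hsup hy hx hg hgood hP _ (hEF' i) (fun μ => ⟨0, by rw [hEM]; rfl⟩)
        fun j => ⟨0, by rw [hEM]; rfl⟩
    · refine pres_good hsup hy hx hg hgood hP _ (fun β => ⟨0, by rw [hEF]; rfl⟩) (hEM' l)
        fun j => ⟨if l = j then 1 else 0, ?_⟩
      rw [hEy]
      split_ifs <;> rfl
  rcases hω.2.1 P hdiv (fun h => h) E hpres with h1 | ⟨s, hs, hs0, h1⟩
  · left
    rw [h1, mul_zero]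
  · have h2 : Ge P 0 (b * s) :=
      RR_ge (hP.triv hg.not_isUnit) (good_triv hy hgood hP) (hb s hs)
    by_cases hω0 : ω E = 0
    · left
      rw [hω0, mul_zero]
    · right
      have h3 := h2.resolve_left (mul_ne_zero hb0 hs0)
      rw [P.ord_mul hb0 hs0] at h3
      rw [P.ord_mul hb0 hω0]
      simp only [Nat.cast_one, one_mul] at h1
      omega

/-- **The numerical dimension of a product** is at most the sum of the numerical dimensions. -/
theorem prod_num [Algebra.EssFiniteType ℂ K] (hM : Algebra.trdeg ℂ M = (r : ℕ))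
    (hF : Algebra.trdeg ℂ F = n) (hn : Algebra.trdeg ℂ K = (n + r : ℕ)) (hsup : M ⊔ F = ⊤)
    (hcl : Pool.Agent.Y172.Closed F) {a b : ℕ} (hMa : NumLe ℂ M r (fun _ => False) a)
    (hFb : NumLe ℂ F n (fun _ => False) b) :
    NumLe ℂ K (n + r) (fun _ => False) (a + b) := by
  classical
  have hcM : CharZero M := charZero_of_injective_algebraMap (algebraMap ℂ M).injective
  have hcF : CharZero F := charZero_of_injective_algebraMap (algebraMap ℂ F).injective
  have hess : Algebra.EssFiniteType ℂ K := inferInstance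
  have hessF : Algebra.EssFiniteType ℂ F := Pool.Agent.Q298.EF.ess_sub (K := K)
  have hLK : Algebra.trdeg F K = r := trdeg_LK hF hn
  obtain ⟨t, ht⟩ := Pool.Agent.W636.PG.exists_basis ℂ F n hF
  obtain ⟨y, hy⟩ := Pool.Agent.W636.PG.exists_basis ℂ M r hM
  have hacl : Pool.Agent.Y172.acl ℂ (F : Set K) ⊔ M = ⊤ := by
    rw [eq_top_iff, ← hsup, sup_comm]
    exact sup_le_sup_right (fun x hx => Pool.Agent.Y172.subset_acl _ hx) M
  have hx : IsTranscendenceBasis F (fun j => (y j : K)) :=
    Pool.Agent.Q298.EF.iso_basis hLK hacl hy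
  have hZ := Pool.Agent.Y174.basis_append ht hx
  obtain ⟨E, hE⟩ := Pool.Agent.W636.PG.exists_duals ℂ K (n + r) _ hZ
  intro S
  have hD := dj_of hsup hy hx
  obtain ⟨hEM, hEF, hEF', hEM', hEy, hEt⟩ := frame_facts ht hy hE
  obtain ⟨b0, hb0, hmem⟩ := iso_mem hn hsup hcl ht hy hx hE S
  obtain ⟨S1, hS1⟩ := desc hD hM hF hy hEM hEF' hEF hEy S hb0
  have hD' : Dj F M := ⟨hD.ld.symm, by rw [sup_comm]; exact hsup⟩
  obtain ⟨E', hE'⟩ : ∃ E' : Fin (r + n) → Derivation ℂ K K, ∀ i, E' i = E (finAddFlip i) :=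
    ⟨_, fun _ => rfl⟩
  have hl : ∀ i : Fin r, E' (Fin.castAdd n i) = E (Fin.natAdd n i) := fun i => by
    rw [hE', finAddFlip_apply_castAdd]
  have hr : ∀ i : Fin n, E' (Fin.natAdd r i) = E (Fin.castAdd r i) := fun i => by
    rw [hE', finAddFlip_apply_natAdd]
  obtain ⟨S2, hS2⟩ := desc hD' hF hM ht (E := E') (fun i β => by rw [hl]; exact hEF i β)
    (fun i μ => by rw [hl]; exact hEM' i μ) (fun i μ => by rw [hr]; exact hEM i μ)
    (fun l j => by rw [hr]; exact hEt l j) S hb0
  obtain ⟨C1, hC1⟩ := hMa S1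
  obtain ⟨C2, hC2⟩ := hFb S2
  have hexp : ∀ D : Derivation ℂ K K, ∃ a : Fin (n + r) → K, D = ∑ i, a i • E i :=
    fun D => ⟨_, der_expand hZ hE D⟩
  refine ⟨C1 * C2, fun m N hm hI => ?_⟩
  obtain ⟨ω, hli, hω⟩ := hI
  have hlin := lin_frame (fun D => hexp D) hli (fun l => (hω l).1) hb0
  obtain ⟨p, τ, hp, hτ, hτs⟩ := TT_basis hy (fun N => hC1 m N hm)
  obtain ⟨p', σ, hp', hσ, hσs⟩ := TT_basis ht (fun N => hC2 m N hm)
  let W : Submodule ℂ K := Submodule.span ℂ (Set.range fun x : Fin p × Fin p' =>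
    (τ x.1 : K) * (σ x.2 : K))
  have hW : ∀ l, b0 * ω l E ∈ W := by
    intro l
    obtain ⟨q, β, μ, hβ, hsum⟩ :=
      Pool.Agent.W735.PG.DESCJ.expandFin (RR_swap (hmem m (ω l) (hω l)))
    have h1 := hS1 m (ω l) (hω l) q β μ hβ hsum
    choose c hc using fun i => hτs (μ i) (h1 i)
    -- the coefficients of the `τ j`
    have h2 : b0 * ω l E = ∑ j, (τ j : K) * ((∑ i, c i j • β i : F) : K) := by
      rw [hsum]
      have h3 : ∀ i, (μ i : K) = ∑ j, algebraMap ℂ K (c i j) * (τ j : K) := by
        intro i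
        have h4 := congrArg (algebraMap M K) (hc i)
        rw [map_sum] at h4
        change (μ i : K) = _ at h4
        rw [h4]
        refine Finset.sum_congr rfl fun j _ => ?_
        rw [Algebra.smul_def, map_mul]
        rfl
      have h5 : ∀ j, ((∑ i, c i j • β i : F) : K) = ∑ i, algebraMap ℂ K (c i j) * (β i : K) := by
        intro j
        change algebraMap F K (∑ i, c i j • β i) = _
        rw [map_sum]
        refine Finset.sum_congr rfl fun i _ => ?_
        rw [Algebra.smul_def, map_mul]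
        rfl
      simp only [h3, h5, Finset.mul_sum]
      rw [Finset.sum_comm]
      refine Finset.sum_congr rfl fun j _ => Finset.sum_congr rfl fun i _ => ?_
      ring
    have h3 : b0 * (fun D : Fin (r + n) → Derivation ℂ K K => ω l fun i => D (finAddFlip i)) E' =
        ∑ j, (τ j : K) * ((∑ i, c i j • β i : F) : K) := by
      rw [← h2]
      change b0 * ω l (fun i => E' (finAddFlip i)) = _
      have h7 : (fun i => E' (finAddFlip i)) = E := funext fun i => by
        rw [hE']
        congr 1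
        refine Fin.addCases (fun j => ?_) (fun j => ?_) i
        · rw [finAddFlip_apply_castAdd, finAddFlip_apply_natAdd]
        · rw [finAddFlip_apply_natAdd, finAddFlip_apply_castAdd]
      rw [h7]
    have h4 := hS2 m _ (sec_swap (hω l)) p τ (fun j => ∑ i, c i j • β i) hτ h3
    choose c' hc' using fun j => hσs _ (h4 j)
    rw [h2]
    refine Submodule.sum_mem _ fun j _ => ?_
    have h5 : ((∑ i, c i j • β i : F) : K) = ∑ j', c' j j' • (σ j' : K) := by
      have h6 : algebraMap F K (∑ i, c i j • β i) = algebraMap F K (∑ j', c' j j' • σ j') :=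
        congrArg _ (hc' j)
      change algebraMap F K (∑ i, c i j • β i) = _
      rw [h6, map_sum]
      refine Finset.sum_congr rfl fun j' _ => ?_
      rw [Algebra.smul_def, map_mul, Algebra.smul_def]
      rfl
    rw [h5, Finset.mul_sum]
    refine Submodule.sum_mem _ fun j' _ => ?_
    rw [mul_smul_comm]
    exact Submodule.smul_mem _ _ (Submodule.subset_span ⟨(j, j'), rfl⟩)
  have h1 : N ≤ p * p' := by
    have h2 : Module.finrank ℂ W ≤ p * p' := by
      have h3 := finrank_range_le_card (R := ℂ) (fun x : Fin p × Fin p' =>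
        (τ x.1 : K) * (σ x.2 : K))
      simpa [W, Set.finrank] using h3
    have hfd : FiniteDimensional ℂ W := FiniteDimensional.span_of_finite ℂ (Set.finite_range _)
    have h3 : LinearIndependent ℂ (fun l => (⟨b0 * ω l E, hW l⟩ : W)) :=
      LinearIndependent.of_comp W.subtype hlin
    have h4 := h3.fintype_card_le_finrank
    rw [Fintype.card_fin] at h4
    exact h4.trans h2
  calc N ≤ p * p' := h1
    _ ≤ (C1 * m ^ a) * (C2 * m ^ b) := Nat.mul_le_mul hp hp'
    _ = C1 * C2 * m ^ (a + b) := by rw [pow_add]; ring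

end

end Pool.Agent.Q298.IS
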