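import Pool.Agent.Q298.IS.Prs
import Pool.Agent.Q298.EF.IsoLow
import Pool.Agent.Y191.CanB
import Pool.Agent.Y191.MovAb
import Pool.Agent.Y174.W4

/-! The numerical dimension of a product of two varieties is at most the dimension of the first
factor plus the numerical dimension of the second factor. -/

set_option autoImplicit false
set_option linter.overlappingInstances false
set_option linter.unusedSectionVars false

open FF Pool.Agent.W619.PQ Pool.Agent.W619.PL Pool.Agent.W619.TW
  Pool.Agent.W603.LV Pool.Agent.Y191 Pool.Agent.Y174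
open Pool.Agent.Y173.QA Pool.Agent.TH122.AB Pool.Agent.W619.Y MvPolynomial
open scoped TensorProduct

namespace Pool.Agent.Q298.IS

section

variable {K : Type} [Field K] [Algebra ℂ K] {M F : IntermediateField ℂ K} {n r : ℕ}

/-- the fields of the factors are linearly disjoint -/
theorem dj_of (hsup : M ⊔ F = ⊤) {y : Fin r → M} (hy : IsTranscendenceBasis ℂ y)
    (hx : IsTranscendenceBasis F (fun j => (y j : K))) : Dj M F := by
  refine ⟨?_, hsup⟩
  have h1 := Pool.Agent.W904.PG.T2 (k := ℂ) (P := F) (M := M) (L := K) M.val y hy hx.1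
  let b := Module.Basis.ofVectorSpace ℂ M
  refine IntermediateField.LinearDisjoint.of_basis_left b ?_
  have h2 := (Algebra.TensorProduct.basis F b).linearIndependent.map'
    (Algebra.TensorProduct.productLeftAlgHom (Algebra.ofId F K) M.val).toLinearMap
    (LinearMap.ker_eq_bot.2 h1)
  have h3 : ((Algebra.TensorProduct.productLeftAlgHom (Algebra.ofId F K) M.val).toLinearMap ∘
      (Algebra.TensorProduct.basis F b)) = fun i => ((b i : M) : K) := by
    funext i
    rw [Function.comp_apply, Algebra.TensorProduct.basis_apply]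
    change Algebra.TensorProduct.productLeftAlgHom (Algebra.ofId F K) M.val
      ((1 : F) ⊗ₜ[ℂ] b i) = _
    simp [Algebra.ofId_apply]
  rw [h3] at h2
  exact h2

theorem RR_swap {z : K} (hz : z ∈ RR M F) : z ∈ RR F M := by
  have h1 := RR.mem_span hz
  clear hz
  induction h1 using Submodule.closure_induction with
  | zero => exact zero_mem _
  | add x y _ _ hx hy => exact add_mem hx hy
  | smul_mem c x hx =>
    rw [Algebra.smul_def]
    exact mul_mem (RR.left c.2) (RR.right hx)

/-- a common denominator -/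
theorem exists_den (h : Dj M F) (S : Finset K) :
    ∃ b : K, b ≠ 0 ∧ ∀ s ∈ S, b * s ∈ RR M F := by
  classical
  have h1 : ∀ s : K, ∃ b : K, b ∈ RR M F ∧ b ≠ 0 ∧ b * s ∈ RR M F := by
    intro s
    obtain ⟨a, ha, b, hb, hb0, rfl⟩ := h.frac s
    exact ⟨b, hb, hb0, by rwa [mul_div_cancel₀ _ hb0]⟩
  choose b hb hb0 hbs using h1
  refine ⟨∏ s ∈ S, b s, Finset.prod_ne_zero_iff.2 fun s _ => hb0 s, fun s hs => ?_⟩
  rw [← Finset.mul_prod_erase S b hs, mul_comm (b s), mul_assoc]
  exact mul_mem (prod_mem fun t _ => hb t) (hbs s)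

/-- elements of the ring are regular at places which are trivial on both fields -/
theorem RR_ge {P : Place ℂ K} (hF : ∀ x ∈ F, x ≠ 0 → P.ord x = 0)
    (hM : ∀ μ : M, P.ord (μ : K) = 0) {z : K} (hz : z ∈ RR M F) : Ge P 0 z := by
  have h1 := RR.mem_span hz
  clear hz
  induction h1 using Submodule.closure_induction with
  | zero => exact Ge.zero
  | add x y _ _ hx hy => exact hx.add hy
  | smul_mem c x hx =>
    rw [Algebra.smul_def]
    by_cases hc : (c : K) = 0
    · left
      change (c : K) * x = 0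
      rw [hc, zero_mul]
    · have h2 : Ge P 0 (c : K) := Or.inr (hF _ c.2 hc).ge
      have h3 : Ge P 0 x := Or.inr (hM ⟨x, hx⟩).ge
      have h4 := h2.mul h3
      rwa [add_zero] at h4

/-- the coefficients of the forms on a factor -/
def TT {r : ℕ} (y : Fin r → M) (S' : Finset M) (m : ℕ) : Set M :=
  {μ | IsSec ℂ M r (fun _ => False) S' m 1
    (fun D => μ * (Matrix.of fun a b => D a (y b)).det ^ m)}

theorem TT_card {y : Fin r → M} (hy : IsTranscendenceBasis ℂ y) {S' : Finset M} {C a m : ℕ}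
    (hC : ∀ N : ℕ, HasIndep ℂ M r N (IsSec ℂ M r (fun _ => False) S' m 1) → N ≤ C * m ^ a)
    (N : ℕ) (μ : Fin N → M) (hμ : LinearIndependent ℂ μ) (hT : ∀ i, μ i ∈ TT y S' m) :
    N ≤ C * m ^ a := by
  classical
  refine hC N ⟨fun i D => μ i * (Matrix.of fun a b => D a (y b)).det ^ m, ?_, hT⟩
  rw [Fintype.linearIndependent_iff] at hμ ⊢
  intro g hg
  apply hμ g
  choose δ hδ using fun i : Fin r => Pool.Agent.W602.GT.exists_der (L := ℂ) y hy
    (fun j => if i = j then (1 : M) else 0)
  have h1 := congrFun hg δ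
  rw [Finset.sum_apply, Pi.zero_apply] at h1
  have h2 : (Matrix.of fun a b => δ a (y b)) = (1 : Matrix (Fin r) (Fin r) M) := by
    ext i j
    rw [Matrix.of_apply, hδ, Matrix.one_apply]
  rw [← h1]
  refine Finset.sum_congr rfl fun i _ => ?_
  rw [Pi.smul_apply, h2, Matrix.det_one, one_pow, mul_one]

theorem TT_span {y : Fin r → M} (hy : IsTranscendenceBasis ℂ y) {S' : Finset M} {C a m : ℕ}
    (hC : ∀ N : ℕ, HasIndep ℂ M r N (IsSec ℂ M r (fun _ => False) S' m 1) → N ≤ C * m ^ a) :
    ∃ b : Finset M, b.card ≤ C * m ^ a ∧ TT y S' m ⊆ Submodule.span ℂ (b : Set M) := by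
  classical
  obtain ⟨b, hbT, hbs, hbl⟩ := exists_linearIndependent ℂ (TT y S' m)
  have h1 : ∀ s : Finset M, (s : Set M) ⊆ b → s.card ≤ C * m ^ a := by
    intro s hs
    refine TT_card hy hC s.card (fun i => (s.equivFin.symm i : M)) ?_ fun i =>
      hbT (hs (s.equivFin.symm i).2)
    have h2 : LinearIndepOn ℂ (id : M → M) (s : Set M) := LinearIndepOn.mono (s := b) hbl hs
    exact h2.comp _ s.equivFin.symm.injective
  have hfin : b.Finite := by
    by_contra hinf
    obtain ⟨s, hs, hc⟩ := Set.Infinite.exists_subset_card_eq hinf (C * m ^ a + 1)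
    have := h1 s hs
    omega
  refine ⟨hfin.toFinset, h1 _ (by rw [Set.Finite.coe_toFinset]), ?_⟩
  rw [Set.Finite.coe_toFinset, hbs]
  exact Submodule.subset_span

theorem span_card {V : Set K} {b : Finset M} {T : Set M}
    (hT : T ⊆ Submodule.span ℂ (b : Set M)) {c : K} (hc : c ≠ 0)
    (hV : ∀ v ∈ V, c * v ∈ Submodule.span F ((↑) '' T : Set K)) :
    Module.finrank F (Submodule.span F V) ≤ b.card := by
  classical
  have h1 : (Submodule.span F ((↑) '' T : Set K)) ≤
      Submodule.span F ((b.image ((↑) : M → K) : Finset K) : Set K) := by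
    rw [Submodule.span_le]
    rintro _ ⟨μ, hμ, rfl⟩
    have h2 := hT hμ
    clear hμ
    induction h2 using Submodule.span_induction with
    | mem x hx =>
      refine Submodule.subset_span ?_
      rw [Finset.coe_image]
      exact ⟨x, hx, rfl⟩
    | zero => exact zero_mem _
    | add x z _ _ hx hz =>
      have h3 : ((x + z : M) : K) = (x : K) + (z : K) := rfl
      rw [h3]
      exact add_mem hx hz
    | smul a x _ hx =>
      have h3 : ((a • x : M) : K) = algebraMap ℂ F a • (x : K) := by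
        rw [algebraMap_smul]
        rfl
      rw [h3]
      exact Submodule.smul_mem _ _ hx
  have h2 : Submodule.span F V ≤ (Submodule.span F
      ((b.image ((↑) : M → K) : Finset K) : Set K)).map (LinearMap.mulLeft F c⁻¹) := by
    rw [Submodule.span_le]
    intro v hv
    refine ⟨c * v, h1 (hV v hv), ?_⟩
    rw [LinearMap.mulLeft_apply, inv_mul_cancel_left₀ hc]
  have h3 : FiniteDimensional F (Submodule.span F
      ((b.image ((↑) : M → K) : Finset K) : Set K)) :=
    FiniteDimensional.span_finset F _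
  calc Module.finrank F (Submodule.span F V) ≤ _ := Submodule.finrank_mono h2
    _ ≤ _ := Submodule.finrank_map_le _ _
    _ ≤ (b.image ((↑) : M → K)).card := finrank_span_finset_le_card _
    _ ≤ b.card := Finset.card_image_le

/-- **The number of sections which are linearly independent over the field of one factor.** -/
theorem iso_count [Algebra.EssFiniteType ℂ K] (hM : Algebra.trdeg ℂ M = (r : ℕ))
    (hF : Algebra.trdeg ℂ F = n) (hK : Algebra.trdeg ℂ K = (n + r : ℕ)) (hsup : M ⊔ F = ⊤)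
    (hcl : Pool.Agent.Y172.Closed F) {t : Fin n → F} (ht : IsTranscendenceBasis ℂ t)
    {y : Fin r → M} (hy : IsTranscendenceBasis ℂ y)
    (hx : IsTranscendenceBasis F (fun j => (y j : K)))
    {E : Fin (n + r) → Derivation ℂ K K}
    (hE : ∀ i j, E i (Fin.append (algebraMap F K ∘ t) (fun j => (y j : K)) j) =
      if i = j then 1 else 0) {a : ℕ}
    (hnum : NumLe ℂ M r (fun _ => False) a) (S : Finset K) :
    ∃ C : ℕ, ∀ m N : ℕ, 1 ≤ m → ∀ ω : Fin N → (Fin (n + r) → Derivation ℂ K K) → K,
      (∀ l, IsSec ℂ K (n + r) (fun _ => False) S m 1 (ω l)) →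
      Module.finrank F (Submodule.span F (Set.range fun l => ω l E)) ≤ C * m ^ a := by
  classical
  have hD := dj_of hsup hy hx
  have hcM : CharZero M := charZero_of_injective_algebraMap (algebraMap ℂ M).injective
  have hcF : CharZero F := charZero_of_injective_algebraMap (algebraMap ℂ F).injective
  have hfd := fd_basisF hx
  -- the frame
  have hEt : ∀ i j, E i (t j : K) = if i = Fin.castAdd r j then 1 else 0 := by
    intro i j
    have h1 := hE i (Fin.castAdd r j)
    rwa [Fin.append_left] at h1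
  have hEy' : ∀ i j, E i (y j : K) = if i = Fin.natAdd n j then 1 else 0 := by
    intro i j
    have h1 := hE i (Fin.natAdd n j)
    rwa [Fin.append_right] at h1
  have hcn : ∀ (i : Fin n) (j : Fin r), Fin.castAdd r i ≠ Fin.natAdd n j := by
    intro i j h
    have h1 := congrArg Fin.val h
    simp at h1
    omega
  have hEM : ∀ (i : Fin n) (μ : M), E (Fin.castAdd r i) (μ : K) = 0 := by
    intro i μ
    refine der_zero (K := M) (L := K) ((E (Fin.castAdd r i)).compAlgebraMap M) y hy (fun j => ?_) μ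
    change E (Fin.castAdd r i) (y j : K) = 0
    rw [hEy', if_neg (hcn i j)]
  have hEF : ∀ (j : Fin r) (β : F), E (Fin.natAdd n j) (β : K) = 0 := by
    intro j β
    refine der_zero (K := F) (L := K) ((E (Fin.natAdd n j)).compAlgebraMap F) t ht (fun i => ?_) β
    change E (Fin.natAdd n j) (t i : K) = 0
    rw [hEt, if_neg (Ne.symm (hcn i j))]
  have hEF' : ∀ (i : Fin n) (β : F), ∃ β' : F, E (Fin.castAdd r i) (β : K) = (β' : K) := by
    intro i β
    obtain ⟨δ, hδ⟩ := Pool.Agent.W602.GT.exists_der (L := ℂ) t ht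
      (fun j => if i = j then (1 : F) else 0)
    refine ⟨δ β, ?_⟩
    refine der_comp (K := F) (L := K) δ (E (Fin.castAdd r i)) t ht (fun j => ?_) β
    change E (Fin.castAdd r i) (t j : K) = algebraMap F K (δ (t j))
    rw [hEt, hδ]
    by_cases hij : i = j
    · subst hij
      rw [if_pos rfl, if_pos rfl, map_one]
    · rw [if_neg hij, if_neg (fun h => hij (Fin.castAdd_injective n r h)), map_zero]
  have hEM' : ∀ (l : Fin r) (μ : M), ∃ μ' : M, E (Fin.natAdd n l) (μ : K) = (μ' : K) := by
    intro l μ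
    obtain ⟨δ, hδ⟩ := Pool.Agent.W602.GT.exists_der (L := ℂ) y hy
      (fun j => if l = j then (1 : M) else 0)
    refine ⟨δ μ, ?_⟩
    refine der_comp (K := M) (L := K) δ (E (Fin.natAdd n l)) y hy (fun j => ?_) μ
    change E (Fin.natAdd n l) (y j : K) = algebraMap M K (δ (y j))
    rw [hEy', hδ]
    by_cases hij : l = j
    · subst hij
      rw [if_pos rfl, if_pos rfl, map_one]
    · rw [if_neg hij, if_neg (fun h => hij (Fin.natAdd_injective r n h)), map_zero]
  have hEy : ∀ l j, E (Fin.natAdd n l) (y j : K) = if l = j then 1 else 0 := by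
    intro l j
    rw [hEy']
    by_cases hij : l = j
    · subst hij
      rw [if_pos rfl, if_pos rfl]
    · rw [if_neg hij, if_neg (fun h => hij (Fin.natAdd_injective r n h))]
  -- the factor
  obtain ⟨c, hc0, hc⟩ := clear_good (M := M) (F := F) hsup hy hx
  obtain ⟨b, hb0, hb⟩ := exists_den hD S
  obtain ⟨S', hS'⟩ := desc hD hM hF hy hEM hEF' hEF hEy S (mul_ne_zero hc0 hb0)
  obtain ⟨C, hC⟩ := hnum S'
  obtain ⟨p, z, e, D, hfr⟩ := exists_FrF hK hcl hx
  have hmem : ∀ (m : ℕ) (ω : (Fin (n + r) → Derivation ℂ K K) → K),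
      IsSec ℂ K (n + r) (fun _ => False) S m 1 ω → c * b * ω E ∈ RR M F := by
    intro m ω hω
    rw [mul_assoc]
    refine hc _ fun P g hg hgood hP => ?_
    have hdiv : IsDivisorial P (n + r) := hP.divisorial hfr hg
    have hpres : ∀ i, Pres P (E i) := by
      intro i
      refine Fin.addCases (fun i => ?_) (fun l => ?_) i
      · exact pres_good hsup hy hx hg hgood hP _ (hEF' i) (fun μ => ⟨0, by rw [hEM]; rfl⟩)
          fun j => ⟨0, by rw [hEM]; rfl⟩
      · refine pres_good hsup hy hx hg hgood hP _ (fun β => ⟨0, by rw [hEF]; rfl⟩) (hEM' l)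
          fun j => ⟨if l = j then 1 else 0, ?_⟩
        rw [hEy]
        split_ifs <;> rfl
    rcases hω.2.1 P hdiv (fun h => h) E hpres with h1 | ⟨s, hs, hs0, h1⟩
    · left
      rw [h1, mul_zero]
    · have h2 : Ge P 0 (b * s) :=
        RR_ge (hP.triv hg.not_isUnit) (good_triv hy hgood hP) (hb s hs)
      by_cases hω0 : ω E = 0
      · left
        rw [hω0, mul_zero]
      · right
        have h3 := h2.resolve_left (mul_ne_zero hb0 hs0)
        rw [P.ord_mul hb0 hs0] at h3
        rw [P.ord_mul hb0 hω0]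
        simp only [Nat.cast_one, one_mul] at h1
        omega
  have hmul : c * b ≠ 0 := mul_ne_zero hc0 hb0
  refine ⟨C, fun m N hm ω hω => ?_⟩
  obtain ⟨B, hBc, hB⟩ := TT_span hy (fun N => hC m N hm)
  refine (span_card (c := c * b) hB hmul ?_).trans hBc
  rintro _ ⟨l, rfl⟩
  obtain ⟨q, β, μ, hβ, hsum⟩ := Pool.Agent.W735.PG.DESCJ.expandFin (RR_swap (hmem m (ω l) (hω l)))
  have h1 := hS' m (ω l) (hω l) q β μ hβ hsum
  change c * b * ω l E ∈ _
  rw [hsum]
  refine Submodule.sum_mem _ fun i _ => ?_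
  exact Submodule.smul_mem _ (β i) (Submodule.subset_span ⟨μ i, h1 i, rfl⟩)

/-- **The numerical dimension of a product of varieties** is at most the dimension of one factor plus
the numerical dimension of the other one. -/
theorem iso_num [Algebra.EssFiniteType ℂ K] (hM : Algebra.trdeg ℂ M = (r : ℕ))
    (hF : Algebra.trdeg ℂ F = n) (hn : Algebra.trdeg ℂ K = (n + r : ℕ)) (hsup : M ⊔ F = ⊤)
    (hcl : Pool.Agent.Y172.Closed F) {a : ℕ} (hnum : NumLe ℂ M r (fun _ => False) a) :
    NumLe ℂ K (n + r) (fun _ => False) (n + a) := by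
  classical
  have hcM : CharZero M := charZero_of_injective_algebraMap (algebraMap ℂ M).injective
  have hcF : CharZero F := charZero_of_injective_algebraMap (algebraMap ℂ F).injective
  have hess : Algebra.EssFiniteType ℂ K := inferInstance
  have hessF : Algebra.EssFiniteType ℂ F := Pool.Agent.Q298.EF.ess_sub (K := K)
  have hLK : Algebra.trdeg F K = r := trdeg_LK hF hn
  obtain ⟨t, ht⟩ := Pool.Agent.W636.PG.exists_basis ℂ F n hF
  obtain ⟨y, hy⟩ := Pool.Agent.W636.PG.exists_basis ℂ M r hM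
  have hacl : Pool.Agent.Y172.acl ℂ (F : Set K) ⊔ M = ⊤ := by
    rw [eq_top_iff, ← hsup, sup_comm]
    exact sup_le_sup_right (fun x hx => Pool.Agent.Y172.subset_acl _ hx) M
  have hx : IsTranscendenceBasis F (fun j => (y j : K)) :=
    Pool.Agent.Q298.EF.iso_basis hLK hacl hy
  have hZ := Pool.Agent.Y174.basis_append ht hx
  have hfdL := Pool.Agent.W824.PG.fin_adj hessF t ht
  have hfin : ∀ y : Fin (n + r) → K, IsTranscendenceBasis ℂ y →
      FiniteDimensional (IntermediateField.adjoin ℂ (Set.range y)) K :=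
    fun y hy => Pool.Agent.W824.PG.fin_adj hess y hy
  have hfd := hfin _ hZ
  obtain ⟨E, hE⟩ := Pool.Agent.W636.PG.exists_duals ℂ K (n + r) _ hZ
  intro S
  obtain ⟨C1, hC1⟩ := iso_count hM hF hn hsup hcl ht hy hx hE hnum S
  -- clearing the denominators
  choose q hq0 hq using fun i => Pool.Agent.Y173.QA.exists_clear hZ hfd (E i)
  obtain ⟨c, hc⟩ : ∃ c : K, c = ∏ i, aeval (Fin.append (algebraMap F K ∘ t) (fun j => (y j : K))) (q i) := ⟨_, rfl⟩
  have hc0 : c ≠ 0 := by
    rw [hc]
    refine Finset.prod_ne_zero_iff.2 fun i _ h0 => hq0 i ?_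
    exact (injective_iff_map_eq_zero _).1 hZ.1 _ h0
  have hcE : ∀ p : MvPolynomial (Fin (n + r)) ℂ, Irreducible p → ∀ P : Place ℂ K,
      Adic (Fin.append (algebraMap F K ∘ t) (fun j => (y j : K))) p P → ∀ i, Pres P (c • E i) := by
    intro p hp P hP i f hf
    have h1 := hq i p hp P hP f hf
    rw [hc, ← Finset.mul_prod_erase Finset.univ _ (Finset.mem_univ i), mul_comm, mul_smul,
      Derivation.smul_apply, smul_eq_mul]
    refine P.reg_mul ?_ h1
    have h2 : (∏ j ∈ Finset.univ.erase i,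
        aeval (Fin.append (algebraMap F K ∘ t) (fun j => (y j : K))) (q j)) ∈ regRing P :=
      prod_mem fun j _ => adic_reg hP (q j)
    exact h2
  obtain ⟨T, hTfin, hTdeg, C2, c2, hC2⟩ := count_rel ht hx hfd hfdL S
  -- the bound at infinity
  have hlb : ∀ P : Place ℂ K, IsDivisorial P (n + r) → ∃ C : ℕ,
      ∀ (m : ℕ) (ω : (Fin (n + r) → Derivation ℂ K K) → K), 1 ≤ m →
      IsSec ℂ K (n + r) (fun _ => False) S m 1 ω →
        Ge P (-((C * m : ℕ) : ℤ)) ((c ^ (n + r)) ^ m * ω E) :=
    fun P hP => lin_bound hn hfin hP E S (c ^ (n + r))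
  have hdivT : ∀ b, ∀ P ∈ T b, IsDivisorial P (n + r) := by
    intro b P hP
    obtain ⟨e, he, hdeg⟩ := hTdeg b P hP
    refine div_of_deg hZ.1 (b := b) fun f hf hf0 => ?_
    rw [hdeg f hf, hf0]
    simp
  obtain ⟨C3, hC3⟩ : ∃ C3 : ℕ, ∀ b, ∀ P ∈ T b, ∀ (m : ℕ)
      (ω : (Fin (n + r) → Derivation ℂ K K) → K), 1 ≤ m →
      IsSec ℂ K (n + r) (fun _ => False) S m 1 ω →
        Ge P (-((C3 * m : ℕ) : ℤ)) ((c ^ (n + r)) ^ m * ω E) := by
    choose Cf hCf using hlb
    have hfin2 : (⋃ b, T b).Finite := Set.finite_iUnion hTfin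
    have := hfin2.fintype
    let g : (⋃ b, T b) → ℕ := fun P => Cf P.1 (by
      obtain ⟨b, hb⟩ := Set.mem_iUnion.1 P.2
      exact hdivT b P.1 hb)
    refine ⟨∑ P, g P, fun b P hP m ω hm hω => ?_⟩
    have hPm : P ∈ ⋃ b, T b := Set.mem_iUnion.2 ⟨b, hP⟩
    have h1 := hCf P (hdivT b P hP) m ω hm hω
    refine h1.mono ?_
    have h2 : g ⟨P, hPm⟩ ≤ ∑ P, g P :=
      Finset.single_le_sum (fun _ _ => Nat.zero_le _) (Finset.mem_univ _)
    have h3 : Cf P (hdivT b P hP) * m ≤ (∑ P, g P) * m := Nat.mul_le_mul_right _ h2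
    have h4 : ((Cf P (hdivT b P hP) * m : ℕ) : ℤ) ≤ (((∑ P, g P) * m : ℕ) : ℤ) := by
      exact_mod_cast h3
    exact neg_le_neg h4
  have hexp : ∀ D : Derivation ℂ K K, ∃ a : Fin (n + r) → K, D = ∑ i, a i • E i :=
    fun D => ⟨_, der_expand hZ hE D⟩
  refine ⟨C2 * C1 * (C3 + c2) ^ n, fun m N hm hI => ?_⟩
  obtain ⟨ω, hli, hω⟩ := hI
  have hcm : (c ^ (n + r)) ^ m ≠ 0 := pow_ne_zero _ (pow_ne_zero _ hc0)
  have hlin := lin_frame (fun D => hexp D) hli (fun l => (hω l).1) hcm
  have hrk : Module.finrank F (Submodule.span F (Set.range fun l =>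
      (c ^ (n + r)) ^ m * ω l E)) ≤ C1 * m ^ a := by
    have h1 := hC1 m N hm ω hω
    have h2 : Submodule.span F (Set.range fun l => (c ^ (n + r)) ^ m * ω l E) =
        (Submodule.span F (Set.range fun l => ω l E)).map
          (LinearMap.mulLeft F ((c ^ (n + r)) ^ m)) := by
      rw [Submodule.map_span, ← Set.range_comp]
      rfl
    rw [h2]
    have h3 : FiniteDimensional F (Submodule.span F (Set.range fun l => ω l E)) :=
      FiniteDimensional.span_of_finite F (Set.finite_range _)
    exact (Submodule.finrank_map_le _ _).trans h1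
  have h1 := hC2 (fun _ => C3 * m) N (C1 * m ^ a) _ hlin hrk (fun l p hp P hP => ?_)
    fun l b P hP => hC3 b P hP m (ω l) hm (hω l)
  · refine h1.trans ?_
    rw [Finset.prod_const, Finset.card_univ, Fintype.card_fin]
    have h2 : C3 * m + c2 ≤ (C3 + c2) * m := by
      rw [Nat.add_mul]
      have := Nat.le_mul_of_pos_right c2 hm
      omega
    have h3 : (C3 * m + c2) ^ n ≤ (C3 + c2) ^ n * m ^ n := by
      rw [← Nat.mul_pow]
      exact Nat.pow_le_pow_left h2 n
    calc C2 * (C1 * m ^ a) * (C3 * m + c2) ^ n ≤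
        C2 * (C1 * m ^ a) * ((C3 + c2) ^ n * m ^ n) := Nat.mul_le_mul_left _ h3
      _ = C2 * C1 * (C3 + c2) ^ n * m ^ (n + a) := by
        rw [pow_add]
        ring
  · change Dom P S 1 ((c ^ (n + r)) ^ m * ω l E)
    rw [← phi_smul (hω l).1 c E]
    exact (hω l).2.1 P (adic_div hZ.1 hp hP) (fun h => h) _ fun i f hf => hcE p hp P hP i f hf

end

end Pool.Agent.Q298.IS
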