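import Pool.Agent.Q298.IS.Ring
import Pool.Agent.Y173.QA.Sei

/-! Derivations of a product which preserve the two factors preserve the valuation rings of the
divisors over the generic point of the product. -/

set_option autoImplicit false
set_option linter.overlappingInstances false
set_option linter.unusedSectionVars false

open FF MvPolynomial Pool.Agent.W619.PQ Pool.Agent.W619.PL Pool.Agent.W619.TW
  Pool.Agent.W603.LV Pool.Agent.Y191

namespace Pool.Agent.Q298.IS

/-- a regular element is a fraction with a denominator prime to `p` -/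
theorem frac_reg {k C K0 : Type} [Field k] [Field C] [Field K0] [Algebra k K0] [Algebra C K0]
    {σ : Type} {X : σ → K0} (hX : GensS (k := C) X) {p : MvPolynomial σ C}
    (hp : Irreducible p) {v : Place k K0}
    (hv : ∀ P, P ≠ 0 → 0 ≤ v.ord (aeval X P) ∧ (v.ord (aeval X P) = 0 ↔ ¬ p ∣ P)) {z : K0}
    (hz : v.Reg z) : ∃ P Q : MvPolynomial σ C, Q ≠ 0 ∧ ¬ p ∣ Q ∧
      z = aeval X P / aeval X Q := by
  classical
  by_cases hz0 : z = 0
  · refine ⟨0, 1, one_ne_zero, fun h => hp.not_isUnit (isUnit_of_dvd_one h), ?_⟩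
    rw [hz0, map_zero, zero_div]
  obtain ⟨P0, Q0, hQ0, hz1⟩ := hX.gen z
  obtain ⟨P, Q, c', hcop, ha, hb⟩ := UniqueFactorizationMonoid.exists_reduced_factors' P0 Q0 hQ0
  have hQ : Q ≠ 0 := by
    rintro rfl
    apply hQ0
    rw [← hb, mul_zero]
  have hc' : c' ≠ 0 := by
    rintro rfl
    apply hQ0
    rw [← hb, zero_mul]
  have hz2 : z = aeval X P / aeval X Q := by
    have hcX := hX.ne hc'
    rw [hz1, ← ha, ← hb, map_mul, map_mul, mul_div_mul_left _ _ hcX]
  have hP : P ≠ 0 := by
    intro h0
    apply hz0
    rw [hz2, h0, map_zero, zero_div]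
  refine ⟨P, Q, hQ, fun hpQ => ?_, hz2⟩
  have hpP : ¬ p ∣ P := fun hpP => hp.not_isUnit (hcop hpP hpQ)
  have h2 := (hv P hP).2.2 hpP
  have h3 : 0 < v.ord (aeval X Q) := by
    have h4 := hv Q hQ
    rcases lt_or_eq_of_le h4.1 with h5 | h5
    · exact h5
    · exact absurd hpQ (h4.2.1 h5.symm)
  rw [v.reg_iff hz0, hz2, v.ord_div (hX.ne hP) (hX.ne hQ), h2] at hz
  omega

section

variable {k L : Type} [Field k] [Field L] [Algebra k L] [CharZero k]
  {M F : IntermediateField k L} {d : ℕ} {y : Fin d → M}

theorem pres_good (hsup : M ⊔ F = ⊤) (hy : IsTranscendenceBasis k y)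
    (hyF : IsTranscendenceBasis F (fun j => (y j : L)))
    [FiniteDimensional (IntermediateField.adjoin F (Set.range fun j => (y j : L))) L]
    {P : Place k L} {g : MvPolynomial (Fin d) F} (hg : Irreducible g) (hgood : Good k g)
    (hP : AdicF P (fun j => (y j : L)) g) (D : Derivation k L L)
    (hDF : ∀ β : F, ∃ β' : F, D (β : L) = (β' : L)) (hDM : ∀ μ : M, ∃ μ' : M, D (μ : L) = (μ' : L))
    (hDy : ∀ j, ∃ β' : F, D (y j : L) = (β' : L)) : Pres P D := by
  classical
  obtain ⟨U, hU⟩ : ∃ U : Fin d → L, U = fun j => (y j : L) := ⟨_, rfl⟩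
  have hgens := crd_gens (k := F) hyF.1
  have iT : IsScalarTower k (IntermediateField.adjoin F (Set.range fun j => (y j : L))) L :=
    IsScalarTower.of_algebraMap_eq fun _ => rfl
  have hspan := span_M hsup (IntermediateField.adjoin F (Set.range fun j => (y j : L)))
  have hcoe := fun Q : MvPolynomial (Fin d) F => crd_coe (k := F) (fun j => (y j : L)) Q
  have htriv := AdicF.triv hg.not_isUnit hP
  have halg : Algebra.IsAlgebraic
    (IntermediateField.adjoin F (Set.range fun j => (y j : L))) L := inferInstance
  obtain ⟨e, v, hPv⟩ := Pool.Agent.W73.PG.PULL.exists_over' (k := k)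
    (K := IntermediateField.adjoin F (Set.range fun j => (y j : L))) P
  have he : (0 : ℤ) < e := by exact_mod_cast hPv.1
  have hv : ∀ f : MvPolynomial (Fin d) F, f ≠ 0 →
      0 ≤ v.ord (aeval (crd (k := F) fun j => (y j : L)) f) ∧
        (v.ord (aeval (crd (k := F) fun j => (y j : L)) f) = 0 ↔ ¬ g ∣ f) := by
    intro f hf
    obtain ⟨h1, h2⟩ := hP f hf
    have h3 : P.ord (aeval (fun j => (y j : L)) f) =
        e * v.ord (aeval (crd (k := F) fun j => (y j : L)) f) := by
      rw [← hcoe]
      exact hPv.2 _
    rw [h3] at h1 h2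
    refine ⟨nonneg_of_mul_nonneg_right h1 he, ?_⟩
    rw [← h2]
    constructor
    · intro h3
      rw [h3, mul_zero]
    · intro h3
      rcases mul_eq_zero.1 h3 with h4 | h4
      · omega
      · exact h4
  have hregP : ∀ f : MvPolynomial (Fin d) F, P.Reg (aeval (fun j => (y j : L)) f) := by
    intro f
    by_cases hf : f = 0
    · rw [hf, map_zero]; exact P.reg_zero
    · exact Or.inr (hP f hf).1
  let A : Subring L := Subring.closure
    ((algebraMap (IntermediateField.adjoin F (Set.range fun j => (y j : L))) L) '' {z | v.Reg z} ∪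
      (M : Set L))
  have hOA : ∀ z : IntermediateField.adjoin F (Set.range fun j => (y j : L)), v.Reg z →
      algebraMap _ L z ∈ A := fun z hz => Subring.subset_closure (Or.inl ⟨z, hz, rfl⟩)
  have hMA : ∀ z ∈ M, z ∈ A := fun z hz => Subring.subset_closure (Or.inr hz)
  have hpolyA : ∀ f : MvPolynomial (Fin d) F, aeval (fun j => (y j : L)) f ∈ A := by
    intro f
    rw [← hcoe]
    refine hOA _ ?_
    by_cases hf : f = 0
    · rw [hf, map_zero]; exact v.reg_zero
    · exact Or.inr (hv f hf).1
  have hFA : ∀ β : F, (β : L) ∈ A := fun β => by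
    have h1 := hpolyA (C β)
    rw [aeval_C] at h1
    exact h1
  have hDpoly : ∀ f : MvPolynomial (Fin d) F, D (aeval (fun j => (y j : L)) f) ∈ A := by
    intro f
    induction f using MvPolynomial.induction_on with
    | C c =>
      rw [aeval_C]
      obtain ⟨β', h1⟩ := hDF c
      change D (c : L) ∈ A
      rw [h1]
      exact hFA β'
    | add f g hf hg => rw [map_add, map_add]; exact A.add_mem hf hg
    | mul_X f j hf =>
      rw [map_mul, aeval_X, D.leibniz, smul_eq_mul, smul_eq_mul]
      obtain ⟨β', h1⟩ := hDy j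
      rw [h1]
      exact A.add_mem (A.mul_mem (hpolyA f) (hFA β')) (A.mul_mem (hMA _ (y j).2) hf)
  refine Pool.Agent.Y173.QA.sei hPv D A hOA ?_ ?_ ?_
  · intro z hz
    induction hz using Subring.closure_induction with
    | mem z hz =>
      rcases hz with ⟨z, hz, rfl⟩ | hz
      · exact hPv.reg.2 hz
      · exact Or.inr (good_triv hy hgood hP ⟨z, hz⟩).ge
    | zero => exact P.reg_zero
    | one => exact P.reg_one
    | add y z _ _ hy hz => exact P.reg_add hy hz
    | neg z _ hz =>
      have : Ge P 0 z := hz
      exact this.neg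
    | mul y z _ _ hy hz => exact P.reg_mul hy hz
  · intro z hz
    induction hz using Subring.closure_induction with
    | mem z hz =>
      rcases hz with ⟨z, hz, rfl⟩ | hz
      · obtain ⟨f, g', hg', hpg, rfl⟩ := frac_reg hgens hg hv hz
        have hginv : (aeval (fun j => (y j : L)) g')⁻¹ ∈ A := by
          rw [← hcoe]
          have h1 : ((aeval (crd (k := F) fun j => (y j : L)) g' :
            IntermediateField.adjoin F (Set.range fun j => (y j : L))) : L)⁻¹ =
            algebraMap _ L (aeval (crd (k := F) fun j => (y j : L)) g')⁻¹ := by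
            rw [map_inv₀]
            rfl
          rw [h1]
          apply hOA
          right
          rw [v.ord_inv, (hv g' hg').2.2 hpg]
          simp
        have h2 : algebraMap (IntermediateField.adjoin F (Set.range fun j => (y j : L))) L
            (aeval (crd (k := F) fun j => (y j : L)) f /
              aeval (crd (k := F) fun j => (y j : L)) g') =
            aeval (fun j => (y j : L)) f * (aeval (fun j => (y j : L)) g')⁻¹ := by
          rw [map_div₀, div_eq_mul_inv, ← hcoe, ← hcoe]
          rfl
        rw [h2, Derivation.leibniz, Derivation.leibniz_inv]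
        simp only [smul_eq_mul]
        refine A.add_mem (A.mul_mem (hpolyA f) (A.mul_mem (A.neg_mem (A.pow_mem hginv 2))
          (hDpoly g'))) (A.mul_mem hginv (hDpoly f))
      · obtain ⟨μ', h1⟩ := hDM ⟨z, hz⟩
        change D ((⟨z, hz⟩ : M) : L) ∈ A
        rw [h1]
        exact hMA _ μ'.2
    | zero => rw [map_zero]; exact A.zero_mem
    | one => rw [Derivation.map_one_eq_zero]; exact A.zero_mem
    | add y z _ _ hy hz => rw [map_add]; exact A.add_mem hy hz
    | neg z _ hz => rw [map_neg]; exact A.neg_mem hz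
    | mul y z hy' hz' hy hz =>
      rw [Derivation.leibniz, smul_eq_mul, smul_eq_mul]
      exact A.add_mem (A.mul_mem hy' hz) (A.mul_mem hz' hy)
  · intro z
    have hz : z ∈ Submodule.span (IntermediateField.adjoin F (Set.range fun j => (y j : L)))
      (M : Set L) := hspan trivial
    induction hz using Submodule.closure_induction with
    | zero => exact ⟨1, A.one_mem, one_ne_zero, by rw [mul_zero]; exact A.zero_mem⟩
    | add x z _ _ hx hz =>
      obtain ⟨a, ha, ha0, h1⟩ := hx
      obtain ⟨b, hb, hb0, h2⟩ := hz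
      refine ⟨a * b, A.mul_mem ha hb, mul_ne_zero ha0 hb0, ?_⟩
      have h3 : a * b * (x + z) = b * (a * x) + a * (b * z) := by ring
      rw [h3]
      exact A.add_mem (A.mul_mem hb h1) (A.mul_mem ha h2)
    | smul_mem r x hx =>
      obtain ⟨P0, Q0, hQ0, hr⟩ := hgens.gen r
      refine ⟨aeval (fun j => (y j : L)) Q0, hpolyA Q0, ?_, ?_⟩
      · rw [← hcoe]
        exact fun h => hgens.ne hQ0 (Subtype.ext h)
      · have h1 : aeval (fun j => (y j : L)) Q0 * (r • x) = aeval (fun j => (y j : L)) P0 * x := by
          rw [Algebra.smul_def, ← mul_assoc]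
          congr 1
          have h2 : r * aeval (crd (k := F) fun j => (y j : L)) Q0 =
              aeval (crd (k := F) fun j => (y j : L)) P0 := by
            rw [hr, div_mul_cancel₀ _ (hgens.ne hQ0)]
          rw [← hcoe, ← hcoe, ← h2, mul_comm]
          rfl
        rw [h1]
        exact A.mul_mem (hpolyA P0) (hMA x hx)

end

end Pool.Agent.Q298.IS
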