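import Pool.Agent.Q298.IS.Desc
import Pool.Agent.Y191.UFam

/-! Functions on a product of two varieties, regular at the divisors over the generic point of the
second factor, are in the ring generated by the function fields, up to a fixed factor. -/

set_option autoImplicit false
set_option linter.overlappingInstances false
set_option linter.unusedSectionVars false

open FF MvPolynomial Pool.Agent.W619.PQ Pool.Agent.W619.PL Pool.Agent.W619.TW
  Pool.Agent.W603.LV Pool.Agent.Y191

namespace Pool.Agent.Q298.IS

section good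

variable {k C : Type} [Field k] [Field C] [Algebra k C] {σ : Type}

/-- `g` divides no nonzero polynomial with coefficients in `k` -/
def Good (k : Type) {C : Type} [Field k] [Field C] [Algebra k C] {σ : Type}
    (g : MvPolynomial σ C) : Prop :=
  ∀ s : MvPolynomial σ k, s ≠ 0 → ¬ g ∣ map (algebraMap k C) s

theorem dvd_bad {B : MvPolynomial σ C} (hB : B ≠ 0)
    (h : ∀ g, Irreducible g → g ∣ B → ¬ Good k g) :
    ∃ s : MvPolynomial σ k, s ≠ 0 ∧ B ∣ map (algebraMap k C) s := by
  classical
  revert hB h
  induction B using UniqueFactorizationMonoid.induction_on_prime with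
  | h₁ => exact fun h => absurd rfl h
  | h₂ x hx => exact fun _ _ => ⟨1, one_ne_zero, hx.dvd⟩
  | h₃ a p ha hp ih =>
    intro hB h
    obtain ⟨s, hs, h1⟩ := ih ha fun g hg hga => h g hg (hga.mul_left p)
    have h2 := h p hp.irreducible (dvd_mul_right p a)
    unfold Good at h2
    push Not at h2
    obtain ⟨s', hs', h3⟩ := h2
    exact ⟨s' * s, mul_ne_zero hs' hs, by rw [map_mul]; exact mul_dvd_mul h3 h1⟩

variable {F : Type} [Field F] [Algebra C F] {X : σ → F}

/-- an element which is regular at the places of all good irreducible polynomials -/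
theorem poly_good (h : GensS (k := C) X) {z : F}
    (hz : ∀ p : MvPolynomial σ C, Irreducible p → Good k p → ∀ v : Place C F,
      v.ord (aeval X p) = 1 →
      (∀ P, P ≠ 0 → 0 ≤ v.ord (aeval X P) ∧ (v.ord (aeval X P) = 0 ↔ ¬ p ∣ P)) → v.Reg z) :
    ∃ (s : MvPolynomial σ k) (P : MvPolynomial σ C), s ≠ 0 ∧
      z * aeval X (map (algebraMap k C) s) = aeval X P := by
  classical
  by_cases hz0 : z = 0
  · exact ⟨1, 0, one_ne_zero, by rw [hz0, zero_mul, map_zero]⟩
  obtain ⟨P0, Q0, hQ0, hz1⟩ := h.gen z
  obtain ⟨P, Q, hQ, hcop, hz2⟩ : ∃ P Q : MvPolynomial σ C, Q ≠ 0 ∧ IsRelPrime P Q ∧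
      z = aeval X P / aeval X Q := by
    obtain ⟨a', b', c', hcop, ha, hb⟩ :=
      UniqueFactorizationMonoid.exists_reduced_factors' P0 Q0 hQ0
    refine ⟨a', b', ?_, hcop, ?_⟩
    · rintro rfl
      apply hQ0
      rw [← hb, mul_zero]
    · have hc' : c' ≠ 0 := by
        rintro rfl
        apply hQ0
        rw [← hb, zero_mul]
      have hcX := h.ne hc'
      rw [hz1, ← ha, ← hb, map_mul, map_mul, mul_div_mul_left _ _ hcX]
  have hP : P ≠ 0 := by
    intro h0
    apply hz0
    rw [hz2, h0, map_zero, zero_div]
  obtain ⟨s, hs, R, hR⟩ := dvd_bad (k := k) hQ fun g hg hgQ hgood => by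
    obtain ⟨v, hv1, hv2⟩ := exists_adicS h hg
    have h1 := hz g hg hgood v hv1 hv2
    have hpP : ¬ g ∣ P := fun hpP => hg.not_isUnit (hcop hpP hgQ)
    have h2 := (hv2 P hP).2.2 hpP
    have h3 : 0 < v.ord (aeval X Q) := by
      have h4 := hv2 Q hQ
      rcases lt_or_eq_of_le h4.1 with h5 | h5
      · exact h5
      · exact absurd hgQ (h4.2.1 h5.symm)
    rw [v.reg_iff hz0, hz2, v.ord_div (h.ne hP) (h.ne hQ), h2] at h1
    omega
  refine ⟨s, P * R, hs, ?_⟩
  rw [hR, hz2, map_mul, map_mul]
  have := h.ne hQ
  field_simp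

end good

section ring

variable {k L : Type} [Field k] [Field L] [Algebra k L] [CharZero k]
  {M F : IntermediateField k L} {d : ℕ} {y : Fin d → M}

theorem aeval_map_y (s : MvPolynomial (Fin d) k) :
    aeval (fun j => (y j : L)) (map (algebraMap k F) s) = ((aeval y s : M) : L) := by
  rw [aeval_map_algebraMap]
  exact aeval_algebraMap_apply L y s

/-- the places over good polynomials are trivial on `M` -/
theorem good_triv (hy : IsTranscendenceBasis k y) {P : Place k L}
    {g : MvPolynomial (Fin d) F} (hg : Good k g)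
    (hP : AdicF P (fun j => (y j : L)) g) (μ : M) : P.ord (μ : L) = 0 := by
  have h0 : ∀ s : MvPolynomial (Fin d) k, s ≠ 0 → P.ord ((aeval y s : M) : L) = 0 := by
    intro s hs
    have h1 : (map (algebraMap k F) s) ≠ 0 := by
      rw [Ne, map_eq_zero_iff _ (map_injective _ (algebraMap k F).injective)]
      exact hs
    have h2 := ((hP _ h1).2).2 (hg s hs)
    rwa [aeval_map_y] at h2
  have h1 : ∀ f : IntermediateField.adjoin k (Set.range y),
      P.ord (algebraMap (IntermediateField.adjoin k (Set.range y)) L f) = 0 := by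
    intro f
    have hf : (f : M) ∈ IntermediateField.adjoin k (Set.range y) := f.2
    rw [IntermediateField.mem_adjoin_range_iff] at hf
    obtain ⟨A, B, hAB⟩ := hf
    have h2 : algebraMap (IntermediateField.adjoin k (Set.range y)) L f = ((f : M) : L) := rfl
    rw [h2, hAB]
    by_cases hA : A = 0
    · rw [hA, map_zero, zero_div]
      exact P.ord_zero
    by_cases hB : B = 0
    · rw [hB, map_zero, div_zero]
      exact P.ord_zero
    have hA' : ((aeval y A : M) : L) ≠ 0 := fun h => hA
      ((injective_iff_map_eq_zero _).1 hy.1 A (Subtype.ext h))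
    have hB' : ((aeval y B : M) : L) ≠ 0 := fun h => hB
      ((injective_iff_map_eq_zero _).1 hy.1 B (Subtype.ext h))
    have h3 : ((aeval y A / aeval y B : M) : L) = ((aeval y A : M) : L) / ((aeval y B : M) : L) :=
      rfl
    rw [h3, P.ord_div hA' hB', h0 A hA, h0 B hB, sub_zero]
  have : Algebra.IsAlgebraic (IntermediateField.adjoin k (Set.range y)) M := hy.isAlgebraic_field
  exact ord_eq_zero_of_alg (K0 := IntermediateField.adjoin k (Set.range y)) (K1 := M) (K2 := L)
    P h1 μ

theorem aeval_RR (P : MvPolynomial (Fin d) F) : aeval (fun j => (y j : L)) P ∈ RR M F := by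
  have h1 : aeval (fun j => (y j : L)) P ∈ Algebra.adjoin F (Set.range fun j => (y j : L)) := by
    rw [Algebra.adjoin_range_eq_range_aeval]
    exact ⟨P, rfl⟩
  refine Algebra.adjoin_mono ?_ h1
  rintro _ ⟨j, rfl⟩
  exact (y j).2

/-- `f` is regular at the places over good polynomials -/
def GReg (F : IntermediateField k L) (y : Fin d → M) (f : L) : Prop :=
  ∀ (P : Place k L) (g : MvPolynomial (Fin d) F), Irreducible g → Good k g →
    AdicF P (fun j => (y j : L)) g → Ge P 0 f

/-- traces are in the ring -/
theorem trace_RR (hy : IsTranscendenceBasis k y)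
    (hyF : IsTranscendenceBasis F (fun j => (y j : L)))
    [FiniteDimensional (IntermediateField.adjoin F (Set.range fun j => (y j : L))) L]
    {f : L} (hf : GReg F y f) (β : M) :
    ((Algebra.trace (IntermediateField.adjoin F (Set.range fun j => (y j : L))) L (f * β) :
      IntermediateField.adjoin F (Set.range fun j => (y j : L))) : L) ∈ RR M F := by
  classical
  have hcF : CharZero F := charZero_of_injective_algebraMap (algebraMap k F).injective
  have key : ∀ p : MvPolynomial (Fin d) F, Irreducible p → Good k p →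
      ∀ v : Place F (IntermediateField.adjoin F (Set.range fun j => (y j : L))),
      v.ord (aeval (crd (k := F) fun j => (y j : L)) p) = 1 →
      (∀ P, P ≠ 0 → 0 ≤ v.ord (aeval (crd (k := F) fun j => (y j : L)) P) ∧
        (v.ord (aeval (crd (k := F) fun j => (y j : L)) P) = 0 ↔ ¬ p ∣ P)) →
      v.Reg (Algebra.trace (IntermediateField.adjoin F (Set.range fun j => (y j : L))) L
        (f * β)) := by
    intro p hp hgood v hv1 hv2
    have h0 : ∀ (w : Place F L) (e : ℕ), Over w v e → Ge w 0 (f * β) := by
      intro w e hw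
      have h1 : AdicS w (fun j => (y j : L)) p := adic_of_over hv2 hw
      have h1' : AdicF (Pool.Agent.Y172.dropP F w) (fun j => (y j : L)) p := h1
      have h2 : Ge w 0 f := hf _ p hp hgood h1'
      have h3 : Ge w 0 (β : L) := Or.inr (good_triv hy hgood h1' β).ge
      have h4 := h2.mul h3
      rwa [add_zero] at h4
    exact Pool.Agent.Y172.trace_reg v (f * β) h0
  obtain ⟨s, Q, hs, hQ⟩ := poly_good (k := k) (crd_gens (k := F) hyF.1) key
  have h1 := congrArg (fun z => ((z : IntermediateField.adjoin F
    (Set.range fun j => (y j : L))) : L)) hQ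
  have h2 : ((aeval (crd (k := F) fun j => (y j : L)) (map (algebraMap k F) s) :
      IntermediateField.adjoin F (Set.range fun j => (y j : L))) : L) =
      ((aeval y s : M) : L) := by
    rw [crd_coe, aeval_map_y]
  have hs0 : ((aeval y s : M) : L) ≠ 0 := fun h => hs
    ((injective_iff_map_eq_zero _).1 hy.1 s (Subtype.ext h))
  have h3 : ((Algebra.trace (IntermediateField.adjoin F (Set.range fun j => (y j : L))) L (f * β) :
      IntermediateField.adjoin F (Set.range fun j => (y j : L))) : L) =
      aeval (fun j => (y j : L)) Q * (((aeval y s)⁻¹ : M) : L) := by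
    have h4 : ((Algebra.trace (IntermediateField.adjoin F (Set.range fun j => (y j : L))) L
        (f * β) : IntermediateField.adjoin F (Set.range fun j => (y j : L))) : L) *
        ((aeval y s : M) : L) = aeval (fun j => (y j : L)) Q := by
      rw [← h2, ← crd_coe (k := F) (fun j => (y j : L)) Q]
      exact h1
    rw [← h4, mul_assoc]
    have h5 : ((aeval y s : M) : L) * (((aeval y s)⁻¹ : M) : L) = 1 := by
      push_cast
      exact mul_inv_cancel₀ hs0
    rw [h5, mul_one]
  rw [h3]
  exact mul_mem (aeval_RR Q) (RR.left (Subtype.coe_prop _))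

/-- the field is spanned by `M` over the field of the coordinates -/
theorem span_M (hsup : M ⊔ F = ⊤) (E0 : IntermediateField F L) [FiniteDimensional E0 L] :
    (⊤ : Submodule E0 L) ≤ Submodule.span E0 (M : Set L) := by
  have h0 : Algebra.IsAlgebraic E0 L := inferInstance
  have h1 : (IntermediateField.adjoin E0 (M : Set L)).toSubalgebra =
      Algebra.adjoin E0 (M : Set L) :=
    IntermediateField.adjoin_toSubalgebra_of_isAlgebraic fun x _ => h0.isAlgebraic x
  have h2 : (Subalgebra.toSubmodule (Algebra.adjoin E0 (M : Set L))) =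
      Submodule.span E0 (M : Set L) := by
    rw [Algebra.adjoin_eq_span]
    congr 1
    have : (Submonoid.closure (M : Set L)) = M.toSubfield.toSubmonoid := by
      apply le_antisymm
      · rw [Submonoid.closure_le]; exact fun z hz => hz
      · exact fun z hz => Submonoid.subset_closure hz
    rw [this]
    rfl
  intro z hz
  clear hz
  rw [← h2]
  change z ∈ Algebra.adjoin E0 (M : Set L)
  rw [← h1]
  change z ∈ IntermediateField.adjoin E0 (M : Set L)
  obtain ⟨A, hA⟩ : ∃ A : IntermediateField E0 L, A = IntermediateField.adjoin E0 (M : Set L) :=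
    ⟨_, rfl⟩
  have hAM : ∀ x ∈ M, x ∈ A := fun x hx => by
    rw [hA]
    exact IntermediateField.subset_adjoin _ _ hx
  have hAF : ∀ x ∈ F, x ∈ A := fun x hx => by
    have h4 : x ∈ E0 := E0.algebraMap_mem ⟨x, hx⟩
    exact A.algebraMap_mem ⟨x, h4⟩
  rw [← hA]
  have h5 : z ∈ M ⊔ F := by
    rw [hsup]
    exact IntermediateField.mem_top
  have h6 : M ⊔ F ≤ IntermediateField.adjoin k ((M : Set L) ∪ (F : Set L)) :=
    sup_le (fun z hz => IntermediateField.subset_adjoin _ _ (Or.inl hz))
      (fun z hz => IntermediateField.subset_adjoin _ _ (Or.inr hz))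
  have h7 := h6 h5
  clear h5 h6 hA h1 h2
  induction h7 using IntermediateField.adjoin_induction with
  | mem a ha =>
    rcases ha with ha | ha
    · exact hAM a ha
    · exact hAF a ha
  | algebraMap a => exact hAM _ (M.algebraMap_mem a)
  | add a b _ _ ha hb => exact add_mem ha hb
  | inv a _ ha => exact inv_mem ha
  | mul a b _ _ ha hb => exact mul_mem ha hb

/-- **Clearing**: functions which are regular at the places over good polynomials are in the ring up
to a fixed factor. -/
theorem clear_good (hsup : M ⊔ F = ⊤) (hy : IsTranscendenceBasis k y)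
    (hyF : IsTranscendenceBasis F (fun j => (y j : L)))
    [FiniteDimensional (IntermediateField.adjoin F (Set.range fun j => (y j : L))) L] :
    ∃ c : L, c ≠ 0 ∧ ∀ f : L, GReg F y f → c * f ∈ RR M F := by
  classical
  obtain ⟨E0, hE0⟩ : ∃ E0 : IntermediateField F L,
      E0 = IntermediateField.adjoin F (Set.range fun j => (y j : L)) := ⟨_, rfl⟩
  have hcE : CharZero (IntermediateField.adjoin F (Set.range fun j => (y j : L))) :=
    charZero_of_injective_algebraMap (algebraMap k _).injective
  have htr := fun (f : L) (hf : GReg F y f) (β : M) => trace_RR hy hyF hf β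
  have hfd : FiniteDimensional E0 L := by rw [hE0]; infer_instance
  have hcE0 : CharZero E0 := by rw [hE0]; exact hcE
  rw [← hE0] at htr
  clear hE0 hcE
  let b := Module.Basis.ofSpan (span_M hsup E0)
  have hbM : ∀ i, b i ∈ M := fun i => Module.Basis.ofSpan_subset (span_M hsup E0) ⟨i, rfl⟩
  have hι : Fintype ((linearIndepOn_empty E0 (id : L → L)).extend (Set.empty_subset (M : Set L))) :=
    Fintype.ofFinite _
  let R := (RR M F).toSubring
  let G := Algebra.traceMatrix E0 b
  have hGR : ∀ i j, (G i j : L) ∈ R := by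
    intro i j
    have h1 := htr 1 (fun P g _ _ _ => Ge.one) (⟨b i, hbM i⟩ * ⟨b j, hbM j⟩)
    rw [one_mul] at h1
    exact h1
  let G' : Matrix _ _ R := Matrix.of fun i j => ⟨(G i j : L), hGR i j⟩
  have hadj : ∀ i j, ((G.adjugate i j : E0) : L) ∈ R := by
    intro i j
    have h1 : (algebraMap E0 L).mapMatrix G = R.subtype.mapMatrix G' := by
      ext i j
      rfl
    have h2 := (algebraMap E0 L).map_adjugate G
    have h3 := R.subtype.map_adjugate G'
    have h4 : ((G.adjugate i j : E0) : L) = ((algebraMap E0 L).mapMatrix G.adjugate) i j := rfl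
    rw [h4, h2, h1, ← h3]
    exact (G'.adjugate i j).2
  have hdet0 : (G.det : E0) ≠ 0 := by
    have := Algebra.discr_not_zero_of_basis E0 b
    rwa [Algebra.discr_def] at this
  refine ⟨(G.det : E0), fun h => hdet0 (Subtype.ext h), fun f hf => ?_⟩
  -- the coordinates
  let a := b.repr f
  let t : _ → E0 := fun i => Algebra.trace E0 L (f * b i)
  have ht : ∀ i, t i = ∑ j, G i j * a j := by
    intro i
    have h1 : f = ∑ j, a j • b j := (b.sum_repr f).symm
    change Algebra.trace E0 L (f * b i) = _
    conv_lhs => rw [h1]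
    rw [Finset.sum_mul, map_sum]
    refine Finset.sum_congr rfl fun j _ => ?_
    rw [smul_mul_assoc, map_smul, smul_eq_mul, mul_comm]
    congr 1
    change _ = Algebra.trace E0 L (b i * b j)
    rw [mul_comm]
  have ht' : t = G.mulVec a := funext ht
  have hGt : G.adjugate.mulVec t = fun j => G.det * a j := by
    rw [ht', Matrix.mulVec_mulVec, Matrix.adjugate_mul, Matrix.smul_mulVec, Matrix.one_mulVec]
    rfl
  have htR : ∀ i, (t i : L) ∈ R := fun i => htr f hf ⟨b i, hbM i⟩
  have hcf : ((G.det : E0) : L) * f = ∑ j, (∑ i, ((G.adjugate j i : E0) : L) * (t i : L)) * b j := by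
    have h1 : f = ∑ j, a j • b j := (b.sum_repr f).symm
    conv_lhs => rw [h1]
    rw [Finset.mul_sum]
    refine Finset.sum_congr rfl fun j _ => ?_
    have h2 := congrArg (fun z : E0 => (z : L)) (congrFun hGt j)
    have h3 : ((G.adjugate.mulVec t j : E0) : L) =
        ∑ i, ((G.adjugate j i : E0) : L) * (t i : L) := by
      change algebraMap E0 L (∑ i, G.adjugate j i * t i) = _
      rw [map_sum]
      refine Finset.sum_congr rfl fun i _ => ?_
      rw [map_mul]
      rfl
    rw [← h3, Algebra.smul_def, ← mul_assoc]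
    congr 1
    exact h2.symm
  rw [hcf]
  have h1 : ∀ j, (∑ i, ((G.adjugate j i : E0) : L) * (t i : L)) * b j ∈ R := fun j =>
    R.mul_mem (R.sum_mem fun i _ => R.mul_mem (hadj j i) (htR i)) (RR.left (hbM j))
  exact R.sum_mem fun j _ => h1 j

end ring

end Pool.Agent.Q298.IS
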